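import Pool.Agent.H865_iso.Low

/-!
# Families of maps: the averages at one small scale are local diffeomorphisms
-/

set_option autoImplicit false

open Set Filter Topology Metric Function MeasureTheory
open scoped Manifold ContDiff

noncomputable section

namespace Pool.Agent.H865_iso

open Pool.Agent.Y522 (LD)
open Pool.Agent.H865_small (E Zs kf om Adm Imm imm_smooth emb_near Zs_pos chart_alt q_smooth)
open Pool.Agent.H865_cl (Gs Gs_smooth Gs_close retr_diff move_rec LD_of_imm)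

/-- the directions of the unit sphere, with any parameters -/
theorem all_dirs2 {n : ℕ} {α : Type} {l : Filter α} {P : α → E n → Prop}
    (h : ∀ v : E n, ‖v‖ = 1 → ∀ᶠ t : α × E n in l ×ˢ 𝓝 v, P t.1 t.2) :
    ∀ᶠ a in l, ∀ v : E n, ‖v‖ = 1 → P a v := by
  have h1 : ∀ v ∈ sphere (0 : E n) 1, {t : α × E n | P t.1 t.2} ∈ l ×ˢ 𝓝 v := by
    intro v hv
    exact h v (by simpa using hv)
  have h2 := (isCompact_sphere (0 : E n) 1).mem_prod_nhdsSet_of_forall h1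
  obtain ⟨U, hU, V, hV, hUV⟩ := Filter.mem_prod_iff.1 h2
  filter_upwards [hU] with t ht v hv
  exact hUV (show (t, v) ∈ U ×ˢ V from ⟨ht, subset_of_mem_nhdsSet hV (by simpa using hv)⟩)

/-- Near `(t0, x)`, at all small scales `s ∈ S`, every linear coordinate of `e` in a tangent direction is recovered
up to `η s` by an affine function of `F t` whose linear part is bounded and whose variation is at most `C s`. -/
def TF {n m k : ℕ} {X T : Type} [TopologicalSpace X] [TopologicalSpace T] [ChartedSpace (E n) X] (e : X → E m)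
    (F : T → X → E k) (S : Set ℝ) (η : ℝ) (t0 : T) (x : X) : Prop :=
  ∀ (B : E n → X) (ζ : E n), B ζ = x → Injective B → (∀ z, LD n B z) → ∀ v : E n, v ≠ 0 → ∃ C : ℝ, 0 ≤ C ∧
    ∀ᶠ q : (ℝ × E n × E n) × T in (𝓝[>] 0 ×ˢ 𝓝 ζ ×ˢ 𝓝 v) ×ˢ 𝓝 t0, q.1.1 ∈ S → ∃ (ℓ : E k →L[ℝ] ℝ) (c : ℝ),
      ‖ℓ‖ ≤ C ∧ ∀ u : X, ‖e u - e (B q.1.2.1)‖ ≤ q.1.1 →
        |ℓ (F q.2 u) + c - inner ℝ (fderiv ℝ (fun z => e (B z)) q.1.2.1 q.1.2.2) (e u - e (B q.1.2.1))| ≤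
          η * q.1.1 * ‖fderiv ℝ (fun z => e (B z)) q.1.2.1 q.1.2.2‖ ∧
        ‖ℓ‖ * ‖F q.2 u - F q.2 (B q.1.2.1)‖ ≤ C * q.1.1

variable {n m k : ℕ} {ρ : ℝ} {β : E n → ℝ} {X : Type} [TopologicalSpace X] {ι : Type} [Fintype ι] {e : X → E m}
  {B : ι → E n → X} [ChartedSpace (E n) X] {N : Type} [TopologicalSpace N] [ChartedSpace (E n) N]
  [IsManifold (𝓡 n) ∞ N] {j : N → E k} {T : Type} [TopologicalSpace T] {g : T → X → N}

theorem fam_low (h1 : ρ ^ 2 < 1) {η0 η : ℝ} (hηη : η0 < η) (hA : Adm n ρ η)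
    (hβ : Continuous β) (hβ0 : ∀ z, 0 ≤ β z) (hβs : ∀ z, 1 < ‖z‖ → β z = 0) (hβp : ∀ z, ‖z‖ < 1 → 0 < β z)
    (he : IsEmbedding e) (hI : ∀ x, Imm (n := n) e x) (hg : Continuous fun p : T × X => g p.1 p.2) (hj : Continuous j)
    (hBi : ∀ i, Injective (B i)) (hBl : ∀ i z, LD n (B i) z)
    {π : E k → N} {Ω : Set (E k)} (hΩ : IsOpen Ω) (hjΩ : range j ⊆ Ω) (hπj : ∀ y, π (j y) = y)
    (hπs : ∀ z ∈ Ω, ContDiffAt ℝ ∞ (fun z => j (π z)) z)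
    (i0 : ι) {ζ : E n} (hζ : ‖ζ‖ < 1) {S : Set ℝ} {t0 : T}
    (hrec : TF (n := n) e (fun t x => j (g t x)) S η0 t0 (B i0 ζ)) :
    ∀ᶠ q : (ℝ × E n) × (ℝ × T) in (𝓝[>] 0 ×ˢ 𝓝 ζ) ×ˢ (𝓝[>] 0 ×ˢ 𝓝 t0), q.1.1 ∈ S → ∀ h : X → E k, Continuous h →
      (∀ x, ‖h x - j (g q.2.2 x)‖ ≤ q.2.1 * q.1.1) →
      Gs ρ β (fun i z => e (B i z)) (fun i z => h (B i z)) q.1.1 (e (B i0 q.1.2)) ∈ Ω ∧ ∀ v : E n, ‖v‖ = 1 →
      fderiv ℝ (fun z => j (π z)) (Gs ρ β (fun i z => e (B i z)) (fun i z => h (B i z)) q.1.1 (e (B i0 q.1.2)))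
        (fderiv ℝ (Gs ρ β (fun i z => e (B i z)) (fun i z => h (B i z)) q.1.1) (e (B i0 q.1.2))
          (fderiv ℝ (fun z => e (B i0 z)) q.1.2 v)) ≠ 0 := by
  have hBc : ∀ i, Continuous (B i) := fun i => continuous_iff_continuousAt.2 fun z => (hBl i z).continuousAt
  have hq : ∀ i, ContDiff ℝ ∞ (fun z => e (B i z)) := q_smooth hI hBl
  have hqd : ∀ i z, Injective (fderiv ℝ (fun z => e (B i z)) z) := fun i z => (imm_smooth (hI _) (hBl i z)).2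
  have hqi : ∀ i, Injective (fun z => e (B i z)) := fun i => he.injective.comp (hBi i)
  have hF : Continuous fun p : T × X => j (g p.1 p.2) := hj.comp hg
  obtain ⟨p, hp⟩ : ∃ p, p = j (g t0 (B i0 ζ)) := ⟨_, rfl⟩
  have hRp : ContDiffAt ℝ ∞ (fun z => j (π z)) p := hπs _ (hjΩ (by rw [hp]; exact mem_range_self _))
  have hball : ∀ᶠ y in 𝓝 ζ, ‖y‖ < 1 := by
    have := isOpen_ball.mem_nhds (show ζ ∈ ball (0 : E n) 1 by rw [mem_ball_zero_iff]; exact hζ)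
    filter_upwards [this] with y hy
    rwa [mem_ball_zero_iff] at hy
  -- closeness of the values
  have hval : ∀ δ : ℝ, 0 < δ → ∀ᶠ q : (ℝ × E n) × (ℝ × T) in (𝓝[>] 0 ×ˢ 𝓝 ζ) ×ˢ (𝓝[>] 0 ×ˢ 𝓝 t0),
      ∀ u : X, ‖e u - e (B i0 q.1.2)‖ ≤ q.1.1 → ‖j (g q.2.2 u) - p‖ < δ := by
    intro δ hδ
    have h2 : ∀ᶠ r : T × X in 𝓝 t0 ×ˢ 𝓝 (B i0 ζ), ‖j (g r.1 r.2) - p‖ < δ := by
      rw [← nhds_prod_eq]
      have h3 : ContinuousAt (fun p : T × X => j (g p.1 p.2)) (t0, B i0 ζ) := hF.continuousAt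
      filter_upwards [h3 (ball_mem_nhds _ hδ)] with r hr
      rw [mem_preimage, mem_ball, dist_eq_norm] at hr
      rw [hp]
      exact hr
    obtain ⟨pa, hpa, pb, hpb, hpab⟩ := Filter.eventually_prod_iff.1 h2
    have h4 : ∀ᶠ q : (ℝ × E n) × (ℝ × T) in (𝓝[>] 0 ×ˢ 𝓝 ζ) ×ˢ (𝓝[>] 0 ×ˢ 𝓝 t0), pa q.2.2 :=
      (tendsto_snd.comp tendsto_snd).eventually hpa
    have h5 : ∀ᶠ q : (ℝ × E n) × (ℝ × T) in (𝓝[>] 0 ×ˢ 𝓝 ζ) ×ˢ (𝓝[>] 0 ×ˢ 𝓝 t0),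
        ∀ u : X, ‖e u - e (B i0 q.1.2)‖ ≤ q.1.1 → u ∈ {x | pb x} :=
      tendsto_fst.eventually (emb_near he (hBc i0).continuousAt hpb)
    filter_upwards [h4, h5] with q hq4 hq5 u hu
    exact hpab hq4 (hq5 u hu)
  have hposs : ∀ᶠ q : (ℝ × E n) × (ℝ × T) in (𝓝[>] 0 ×ˢ 𝓝 ζ) ×ˢ (𝓝[>] 0 ×ˢ 𝓝 t0), 0 < q.1.1 :=
    (tendsto_fst.comp tendsto_fst).eventually (self_mem_nhdsWithin : Ioi (0 : ℝ) ∈ 𝓝[>] 0)
  have hslt : ∀ δ : ℝ, 0 < δ → ∀ᶠ q : (ℝ × E n) × (ℝ × T) in (𝓝[>] 0 ×ˢ 𝓝 ζ) ×ˢ (𝓝[>] 0 ×ˢ 𝓝 t0), q.1.1 < δ := by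
    intro δ hδ
    exact (tendsto_fst.comp tendsto_fst).eventually (mem_of_superset (Ioo_mem_nhdsGT hδ) fun s hs => hs.2)
  have hθpos : ∀ δ : ℝ, 0 < δ → ∀ᶠ q : (ℝ × E n) × (ℝ × T) in (𝓝[>] 0 ×ˢ 𝓝 ζ) ×ˢ (𝓝[>] 0 ×ˢ 𝓝 t0),
      0 < q.2.1 ∧ q.2.1 < δ := by
    intro δ hδ
    exact (tendsto_fst.comp tendsto_snd).eventually (Ioo_mem_nhdsGT hδ)
  have hballq : ∀ᶠ q : (ℝ × E n) × (ℝ × T) in (𝓝[>] 0 ×ˢ 𝓝 ζ) ×ˢ (𝓝[>] 0 ×ˢ 𝓝 t0), ‖q.1.2‖ < 1 :=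
    (tendsto_snd.comp tendsto_fst).eventually hball
  have hGval : ∀ δ : ℝ, 0 < δ → ∀ᶠ q : (ℝ × E n) × (ℝ × T) in (𝓝[>] 0 ×ˢ 𝓝 ζ) ×ˢ (𝓝[>] 0 ×ˢ 𝓝 t0),
      ∀ h : X → E k, Continuous h → (∀ x, ‖h x - j (g q.2.2 x)‖ ≤ q.2.1 * q.1.1) →
      ‖Gs ρ β (fun i z => e (B i z)) (fun i z => h (B i z)) q.1.1 (e (B i0 q.1.2)) - p‖ < δ := by
    intro δ hδ
    filter_upwards [hval (δ / 4) (by positivity), hposs, hslt 1 one_pos, hθpos (δ / 4) (by positivity), hballq]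
      with q hq1 hq2 hq3 hq4 hq5 h hh hh2
    refine lt_of_le_of_lt (Gs_close (q := fun i z => e (B i z)) (g := fun i z => h (B i z)) h1 hβ hβ0 hβs
      (fun i => he.continuous.comp (hBc i)) (fun i => hh.comp (hBc i)) hq2
      (Zs_pos (q := fun i z => e (B i z)) h1 hβ hβ0 hβs hβp (fun i => he.continuous.comp (hBc i)) i0 hq5)
      (c := p) (ε := δ / 2) fun i z _ hz => ?_) (by linarith)
    have h3 := hq1 _ hz
    have h4 := hh2 (B i z)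
    have h5 : h (B i z) - p = (h (B i z) - j (g q.2.2 (B i z))) + (j (g q.2.2 (B i z)) - p) := by abel
    rw [h5]
    refine (norm_add_le _ _).trans ?_
    have h6 : q.2.1 * q.1.1 ≤ δ / 4 := by
      have : q.2.1 * q.1.1 ≤ q.2.1 * 1 := mul_le_mul_of_nonneg_left hq3.le hq4.1.le
      linarith [hq4.2]
    linarith
  have hΩev : ∀ᶠ q : (ℝ × E n) × (ℝ × T) in (𝓝[>] 0 ×ˢ 𝓝 ζ) ×ˢ (𝓝[>] 0 ×ˢ 𝓝 t0),
      ∀ h : X → E k, Continuous h → (∀ x, ‖h x - j (g q.2.2 x)‖ ≤ q.2.1 * q.1.1) →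
      Gs ρ β (fun i z => e (B i z)) (fun i z => h (B i z)) q.1.1 (e (B i0 q.1.2)) ∈ Ω := by
    obtain ⟨δ, hδ, hδ2⟩ := Metric.isOpen_iff.1 hΩ p (hjΩ (by rw [hp]; exact mem_range_self _))
    filter_upwards [hGval δ hδ] with q hq1 h hh hh2
    apply hδ2
    rw [mem_ball, dist_eq_norm]
    exact hq1 h hh hh2
  have hkey : ∀ᶠ q : (ℝ × E n) × (ℝ × T) in (𝓝[>] 0 ×ˢ 𝓝 ζ) ×ˢ (𝓝[>] 0 ×ˢ 𝓝 t0), ∀ v : E n, ‖v‖ = 1 →
      q.1.1 ∈ S → ∀ h : X → E k, Continuous h → (∀ x, ‖h x - j (g q.2.2 x)‖ ≤ q.2.1 * q.1.1) →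
      fderiv ℝ (fun z => j (π z)) (Gs ρ β (fun i z => e (B i z)) (fun i z => h (B i z)) q.1.1 (e (B i0 q.1.2)))
        (fderiv ℝ (Gs ρ β (fun i z => e (B i z)) (fun i z => h (B i z)) q.1.1) (e (B i0 q.1.2))
          (fderiv ℝ (fun z => e (B i0 z)) q.1.2 v)) ≠ 0 := by
    refine all_dirs2 fun v hv => ?_
    have hv0 : v ≠ 0 := by
      rw [← norm_pos_iff, hv]; exact one_pos
    obtain ⟨c0, hc0, hlow⟩ := main_low2 (k := k) h1 hA hβ hβ0 hβs hq hqi hqd i0 hζ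
      (hβp ζ hζ) hv0 (fun i => chart_alt he.injective (hBl i) (hBl i0) (hq i) ζ v)
    obtain ⟨C, hC0, hrecv⟩ := hrec (B i0) ζ rfl (hBi i0) (hBl i0) v hv0
    have hT3 : Tendsto (fun q : ((ℝ × E n) × (ℝ × T)) × E n => (q.1.1.1, q.1.1.2, q.2))
        (((𝓝[>] 0 ×ˢ 𝓝 ζ) ×ˢ (𝓝[>] 0 ×ˢ 𝓝 t0)) ×ˢ 𝓝 v) (𝓝[>] 0 ×ˢ 𝓝 ζ ×ˢ 𝓝 v) :=
      (tendsto_fst.comp (tendsto_fst.comp tendsto_fst)).prodMk
        ((tendsto_snd.comp (tendsto_fst.comp tendsto_fst)).prodMk tendsto_snd)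
    have hT4 : Tendsto (fun q : ((ℝ × E n) × (ℝ × T)) × E n => ((q.1.1.1, q.1.1.2, q.2), q.1.2.2))
        (((𝓝[>] 0 ×ˢ 𝓝 ζ) ×ˢ (𝓝[>] 0 ×ˢ 𝓝 t0)) ×ˢ 𝓝 v) ((𝓝[>] 0 ×ˢ 𝓝 ζ ×ˢ 𝓝 v) ×ˢ 𝓝 t0) :=
      hT3.prodMk (tendsto_snd.comp (tendsto_snd.comp tendsto_fst))
    obtain ⟨V, hV⟩ : ∃ V, V = fderiv ℝ (fun z => e (B i0 z)) ζ v := ⟨_, rfl⟩
    have hV0 : V ≠ 0 := by
      intro h
      apply hv0
      apply hqd i0 ζ
      rw [map_zero, ← hV, h]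
    have hVn : 0 < ‖V‖ := norm_pos_iff.2 hV0
    have tV : Tendsto (fun t : ℝ × E n × E n => fderiv ℝ (fun z => e (B i0 z)) t.2.1 t.2.2)
        (𝓝[>] 0 ×ˢ 𝓝 ζ ×ˢ 𝓝 v) (𝓝 V) := by
      have h1 : Continuous fun p : E n × E n => fderiv ℝ (fun z => e (B i0 z)) p.1 p.2 :=
        (((hq i0).continuous_fderiv (by simp)).comp continuous_fst).clm_apply continuous_snd
      have h2 := h1.tendsto (ζ, v)
      rw [nhds_prod_eq] at h2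
      rw [hV]
      exact h2.comp tendsto_snd
    -- the accuracy
    obtain ⟨gap, hgap⟩ : ∃ gap, gap = (η - η0) * (‖V‖ / 2) := ⟨_, rfl⟩
    have hgp : 0 < gap := by
      rw [hgap]
      have : 0 < η - η0 := by linarith
      positivity
    obtain ⟨w, hw⟩ : ∃ w, w = gap / 2 / (C + 1) := ⟨_, rfl⟩
    have hwp : 0 < w := by rw [hw]; positivity
    have hwC : w * C ≤ gap / 2 := by
      have h2 : w * (C + 1) = gap / 2 := by rw [hw]; field_simp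
      nlinarith
    obtain ⟨δ1, hδ1, hδ2⟩ := retr_diff hRp hwp
    obtain ⟨D0, hD0⟩ : ∃ D0, D0 = ‖fderiv ℝ (fun z => j (π z)) p‖ + 1 := ⟨_, rfl⟩
    have hD0p : 0 < D0 := by rw [hD0]; positivity
    have h3 : ContinuousAt (fderiv ℝ (fun z => j (π z))) p := (hRp.fderiv_right (m := 0) (by simp)).continuousAt
    obtain ⟨δ3, hδ3, hδ4⟩ := Metric.eventually_nhds_iff_ball.1
      (h3.norm.eventually (gt_mem_nhds (show ‖fderiv ℝ (fun z => j (π z)) p‖ < D0 by rw [hD0]; linarith)))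
    have hδ : 0 < min δ1 δ3 := lt_min hδ1 hδ3
    obtain ⟨ϑ0, hϑ0⟩ : ∃ ϑ0, ϑ0 = gap / 2 / ((C + 1) * D0) := ⟨_, rfl⟩
    have hϑ0p : 0 < ϑ0 := by rw [hϑ0]; positivity
    filter_upwards [hT3.eventually hlow, hT4.eventually hrecv, tendsto_fst.eventually hballq,
      tendsto_fst.eventually (hval _ hδ), tendsto_fst.eventually (hGval _ hδ), tendsto_fst.eventually hposs,
      hT3.eventually (tV.norm.eventually (lt_mem_nhds (show ‖V‖ / 2 < ‖V‖ by linarith))),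
      tendsto_fst.eventually (hθpos _ hϑ0p)]
      with t ht hr htb ht4 ht6 ht7 ht8 ht9 htS h hh hh2 hcon
    obtain ⟨ℓ, c, hℓC, hℓ⟩ := hr htS
    obtain ⟨s, hs⟩ : ∃ s, s = t.1.1.1 := ⟨_, rfl⟩
    obtain ⟨y, hy⟩ : ∃ y, y = t.1.1.2 := ⟨_, rfl⟩
    obtain ⟨τ, hτ⟩ : ∃ τ, τ = t.1.2.2 := ⟨_, rfl⟩
    obtain ⟨W, hW⟩ : ∃ W, W = fderiv ℝ (fun z => e (B i0 z)) y t.2 := ⟨_, rfl⟩
    simp only [← hs, ← hy, ← hτ] at ht hℓ ht4 ht6 ht7 ht8 ht9 hh2 hcon htb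
    simp only [← hW] at ht hℓ ht8 hcon
    obtain ⟨z0, hz0⟩ : ∃ z0, z0 = Gs ρ β (fun i z => e (B i z)) (fun i z => h (B i z)) s (e (B i0 y)) := ⟨_, rfl⟩
    have hz0p := ht6 h hh hh2
    rw [← hz0] at hcon hz0p
    have hDz : ‖fderiv ℝ (fun z => j (π z)) z0‖ < D0 := hδ4 z0 (by
      rw [mem_ball, dist_eq_norm]; exact hz0p.trans_le (min_le_right _ _))
    have h3 := ht (Zs_pos h1 hβ hβ0 hβs hβp (fun i => (hq i).continuous) i0 htb)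
      (fun i z => h (B i z)) (fun i => hh.comp (hBc i))
      (ℓ.comp (fderiv ℝ (fun z => j (π z)) z0))
      (c + ℓ (j (g τ (B i0 y))) - (ℓ.comp (fderiv ℝ (fun z => j (π z)) z0)) (j (g τ (B i0 y))))
      (fun i z _ hz2 => by
        obtain ⟨h4, h5⟩ := hℓ (B i z) hz2
        have h6 := ht4 _ hz2
        have h6' : ‖j (g τ (B i0 y)) - p‖ < min δ1 δ3 := ht4 (B i0 y) (by rw [sub_self, norm_zero]; exact ht7.le)
        have h7 := hδ2 z0 (j (g τ (B i z))) (j (g τ (B i0 y))) (hz0p.trans_le (min_le_left _ _))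
          (h6.trans_le (min_le_left _ _)) (h6'.trans_le (min_le_left _ _)) (by rw [hπj]) (by rw [hπj])
        have h8 := move_rec (R := fun z => j (π z)) h4 h5 hwp.le h7
        obtain ⟨ℓ', hℓ'⟩ : ∃ ℓ', ℓ' = ℓ.comp (fderiv ℝ (fun z => j (π z)) z0) := ⟨_, rfl⟩
        rw [← hℓ'] at h8 ⊢
        have h9 : |ℓ' (h (B i z) - j (g τ (B i z)))| ≤ C * D0 * (t.1.2.1 * s) := by
          have h10 : ‖ℓ'‖ ≤ C * D0 := by
            rw [hℓ']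
            exact (ContinuousLinearMap.opNorm_comp_le _ _).trans (mul_le_mul hℓC hDz.le (norm_nonneg _) hC0)
          rw [← Real.norm_eq_abs]
          refine (ℓ'.le_opNorm _).trans ?_
          exact mul_le_mul h10 (hh2 _) (norm_nonneg _) (by positivity)
        have e1 : ℓ' (h (B i z)) + (c + ℓ (j (g τ (B i0 y))) - ℓ' (j (g τ (B i0 y)))) -
            inner ℝ W (e (B i z) - e (B i0 y)) = (ℓ' (j (g τ (B i z))) + (c + ℓ (j (g τ (B i0 y))) -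
            ℓ' (j (g τ (B i0 y)))) - inner ℝ W (e (B i z) - e (B i0 y))) + ℓ' (h (B i z) - j (g τ (B i z))) := by
          rw [map_sub]; ring
        rw [e1]
        refine (abs_add_le _ _).trans ((add_le_add h8 h9).trans ?_)
        have h11 : w * (C * s) ≤ gap / 2 * s := by
          rw [← mul_assoc]; exact mul_le_mul_of_nonneg_right hwC ht7.le
        have h12 : C * D0 * (t.1.2.1 * s) ≤ gap / 2 * s := by
          rw [← mul_assoc]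
          refine mul_le_mul_of_nonneg_right ?_ ht7.le
          have h13 : C * D0 * t.1.2.1 ≤ (C + 1) * D0 * ϑ0 :=
            mul_le_mul (mul_le_mul_of_nonneg_right (by linarith) hD0p.le) ht9.2.le ht9.1.le (by positivity)
          have h14 : (C + 1) * D0 * ϑ0 = gap / 2 := by rw [hϑ0]; field_simp
          linarith
        have h15 : gap * s ≤ (η - η0) * ‖W‖ * s := by
          rw [hgap]
          refine mul_le_mul_of_nonneg_right ?_ ht7.le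
          exact mul_le_mul_of_nonneg_left ht8.le (by linarith)
        nlinarith)
    rw [ContinuousLinearMap.comp_apply, hcon, map_zero] at h3
    exact absurd h3 (not_le.2 hc0)
  filter_upwards [hkey, hΩev] with q hq1 hq2 hqS h hh hh2
  exact ⟨hq2 h hh hh2, fun v hv => hq1 v hv hqS h hh hh2⟩

end Pool.Agent.H865_iso
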