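import Pool.Agent.H865_iso.Low

/-!
# The segment from a diffeomorphism to its averages
-/

set_option autoImplicit false

open Set Filter Topology Metric Function MeasureTheory
open scoped Manifold ContDiff

noncomputable section

namespace Pool.Agent.H865_iso

open Pool.Agent.Y522 (LD)
open Pool.Agent.H865_small (E Zs kf om Adm Imm imm_smooth emb_near Zs_pos chart_alt q_smooth all_dirs)
open Pool.Agent.H865_cl (Gs Gs_smooth Gs_close Gs_tendsto retr_diff move_rec LD_of_imm good_rec2 tendsto_app)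

variable {n m k : ℕ} {ρ : ℝ} {β : E n → ℝ} {X : Type} [TopologicalSpace X] {ι : Type} [Fintype ι] {e : X → E m}
  {B : ι → E n → X} [ChartedSpace (E n) X] {N : Type} [TopologicalSpace N] [ChartedSpace (E n) N]
  [IsManifold (𝓡 n) ∞ N] {j : N → E k} {g : X → N}

theorem good_low (h1 : ρ ^ 2 < 1) {η : ℝ} (hη0 : 0 < η) (hA : Adm n ρ η)
    (hβ : Continuous β) (hβ0 : ∀ z, 0 ≤ β z) (hβs : ∀ z, 1 < ‖z‖ → β z = 0) (hβp : ∀ z, ‖z‖ < 1 → 0 < β z)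
    (he : IsEmbedding e) (hI : ∀ x, Imm (n := n) e x) (hg : Continuous g) (hj : Continuous j)
    (hJ : ∀ y, Imm (n := n) j y) (hBi : ∀ i, Injective (B i)) (hBl : ∀ i z, LD n (B i) z)
    {π : E k → N} {Ω : Set (E k)} (hΩ : IsOpen Ω) (hjΩ : range j ⊆ Ω) (hπj : ∀ y, π (j y) = y)
    (hπs : ∀ z ∈ Ω, ContDiffAt ℝ ∞ (fun z => j (π z)) z)
    (i0 : ι) {ζ : E n} (hζ : ‖ζ‖ < 1) (hgood : LD n g (B i0 ζ)) :
    ∀ᶠ t : ℝ × E n in 𝓝[>] 0 ×ˢ 𝓝 ζ, ∀ a : ℝ, 0 ≤ a → a ≤ 1 →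
      j (g (B i0 t.2)) + a • (Gs ρ β (fun i z => e (B i z)) (fun i z => j (g (B i z))) t.1 (e (B i0 t.2)) -
        j (g (B i0 t.2))) ∈ Ω ∧ ∀ v : E n, ‖v‖ = 1 →
      fderiv ℝ (fun z => j (π z)) (j (g (B i0 t.2)) + a • (Gs ρ β (fun i z => e (B i z)) (fun i z => j (g (B i z)))
        t.1 (e (B i0 t.2)) - j (g (B i0 t.2)))) (fderiv ℝ (fun z => j (g (B i0 z))) t.2 v +
        a • (fderiv ℝ (Gs ρ β (fun i z => e (B i z)) (fun i z => j (g (B i z))) t.1) (e (B i0 t.2))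
          (fderiv ℝ (fun z => e (B i0 z)) t.2 v) - fderiv ℝ (fun z => j (g (B i0 z))) t.2 v)) ≠ 0 := by
  have hBc : ∀ i, Continuous (B i) := fun i => continuous_iff_continuousAt.2 fun z => (hBl i z).continuousAt
  have hq : ∀ i, ContDiff ℝ ∞ (fun z => e (B i z)) := q_smooth hI hBl
  have hqd : ∀ i z, Injective (fderiv ℝ (fun z => e (B i z)) z) := fun i z => (imm_smooth (hI _) (hBl i z)).2
  have hqi : ∀ i, Injective (fun z => e (B i z)) := fun i => he.injective.comp (hBi i)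
  have hF : Continuous fun x => j (g x) := hj.comp hg
  have hgc : ∀ i, Continuous (fun z => j (g (B i z))) := fun i => hF.comp (hBc i)
  have hfl : LD n (fun z => g (B i0 z)) ζ := Pool.Agent.Y522.LD.comp_fun hgood (hBl i0 ζ)
  have hfc : ∀ y, LD n (fun z => g (B i0 z)) y → ContDiffAt ℝ ∞ (fun z => j (g (B i0 z))) y := fun y hy =>
    (imm_smooth (B := fun z => g (B i0 z)) (hJ _) hy).1
  have hball : ∀ᶠ y in 𝓝 ζ, ‖y‖ < 1 := by
    have := isOpen_ball.mem_nhds (show ζ ∈ ball (0 : E n) 1 by rw [mem_ball_zero_iff]; exact hζ)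
    filter_upwards [this] with y hy
    rwa [mem_ball_zero_iff] at hy
  obtain ⟨p, hp⟩ : ∃ p, p = j (g (B i0 ζ)) := ⟨_, rfl⟩
  have hpΩ : p ∈ Ω := hjΩ (by rw [hp]; exact mem_range_self _)
  have hRp : ContDiffAt ℝ ∞ (fun z => j (π z)) p := hπs _ hpΩ
  have hGt := Gs_tendsto (F := fun x => j (g x)) (e := e) h1 hβ hβ0 hβs hβp he hF hBc i0 hζ
  have hyt : Tendsto (fun t : ℝ × E n => j (g (B i0 t.2))) (𝓝[>] 0 ×ˢ 𝓝 ζ) (𝓝 p) := by
    rw [hp]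
    exact ((hgc i0).tendsto ζ).comp tendsto_snd
  rw [← hp] at hGt
  -- all the points of the segment are close to `p`
  have hseg : ∀ δ : ℝ, 0 < δ → ∀ᶠ t : ℝ × E n in 𝓝[>] 0 ×ˢ 𝓝 ζ, ∀ a : ℝ, 0 ≤ a → a ≤ 1 →
      ‖j (g (B i0 t.2)) + a • (Gs ρ β (fun i z => e (B i z)) (fun i z => j (g (B i z))) t.1 (e (B i0 t.2)) -
        j (g (B i0 t.2))) - p‖ < δ := by
    intro δ hδ
    filter_upwards [hGt (ball_mem_nhds _ hδ), hyt (ball_mem_nhds _ hδ)] with t ht1 ht2 a ha0 ha1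
    have h3 := convex_ball p δ ht2 ht1 (show 0 ≤ 1 - a by linarith) ha0 (by ring)
    rw [mem_ball, dist_eq_norm] at h3
    refine lt_of_eq_of_lt ?_ h3
    congr 1
    rw [smul_sub, sub_smul, one_smul]
    abel
  have hΩev : ∀ᶠ t : ℝ × E n in 𝓝[>] 0 ×ˢ 𝓝 ζ, ∀ a : ℝ, 0 ≤ a → a ≤ 1 →
      j (g (B i0 t.2)) + a • (Gs ρ β (fun i z => e (B i z)) (fun i z => j (g (B i z))) t.1 (e (B i0 t.2)) -
        j (g (B i0 t.2))) ∈ Ω := by
    obtain ⟨δ, hδ, hδ2⟩ := Metric.isOpen_iff.1 hΩ p hpΩ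
    filter_upwards [hseg δ hδ] with t ht a ha0 ha1
    apply hδ2
    rw [mem_ball, dist_eq_norm]
    exact ht a ha0 ha1
  have hkey : ∀ᶠ t : ℝ × E n in 𝓝[>] 0 ×ˢ 𝓝 ζ, ∀ v : E n, ‖v‖ = 1 → ∀ a : ℝ, 0 ≤ a → a ≤ 1 →
      fderiv ℝ (fun z => j (π z)) (j (g (B i0 t.2)) + a • (Gs ρ β (fun i z => e (B i z)) (fun i z => j (g (B i z)))
        t.1 (e (B i0 t.2)) - j (g (B i0 t.2)))) (fderiv ℝ (fun z => j (g (B i0 z))) t.2 v +
        a • (fderiv ℝ (Gs ρ β (fun i z => e (B i z)) (fun i z => j (g (B i z))) t.1) (e (B i0 t.2))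
          (fderiv ℝ (fun z => e (B i0 z)) t.2 v) - fderiv ℝ (fun z => j (g (B i0 z))) t.2 v)) ≠ 0 := by
    refine all_dirs (P := fun s y v => ∀ a : ℝ, 0 ≤ a → a ≤ 1 →
      fderiv ℝ (fun z => j (π z)) (j (g (B i0 y)) + a • (Gs ρ β (fun i z => e (B i z)) (fun i z => j (g (B i z)))
        s (e (B i0 y)) - j (g (B i0 y)))) (fderiv ℝ (fun z => j (g (B i0 z))) y v +
        a • (fderiv ℝ (Gs ρ β (fun i z => e (B i z)) (fun i z => j (g (B i z))) s) (e (B i0 y))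
          (fderiv ℝ (fun z => e (B i0 z)) y v) - fderiv ℝ (fun z => j (g (B i0 z))) y v)) ≠ 0) fun v hv => ?_
    have hv0 : v ≠ 0 := by
      rw [← norm_pos_iff, hv]; exact one_pos
    obtain ⟨c0, hc0, hlow⟩ := main_low2 (k := k) h1 hA hβ hβ0 hβs hq hqi hqd i0 hζ
      (hβp ζ hζ) hv0 (fun i => chart_alt he.injective (hBl i) (hBl i0) (hq i) ζ v)
    obtain ⟨ℓ, hℓ0, C1, hC1, hℓ⟩ := good_rec2 he (hBi i0) (hBl i0) (hq i0) (hqd i0 ζ) hJ hgood hζ hv0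
    obtain ⟨V, hV⟩ : ∃ V, V = fderiv ℝ (fun z => e (B i0 z)) ζ v := ⟨_, rfl⟩
    have hV0 : V ≠ 0 := by
      intro h
      apply hv0
      apply hqd i0 ζ
      rw [map_zero, ← hV, h]
    have hVn : 0 < ‖V‖ := norm_pos_iff.2 hV0
    obtain ⟨c1, hc1⟩ : ∃ c1, c1 = ℓ (fderiv ℝ (fun z => j (g (B i0 z))) ζ v) := ⟨_, rfl⟩
    rw [← hc1] at hℓ0
    have tζ : Tendsto (fun t : ℝ × E n × E n => t.2.1) (𝓝[>] 0 ×ˢ 𝓝 ζ ×ˢ 𝓝 v) (𝓝 ζ) :=
      tendsto_fst.comp tendsto_snd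
    have ts : Tendsto (fun t : ℝ × E n × E n => t.1) (𝓝[>] 0 ×ˢ 𝓝 ζ ×ˢ 𝓝 v) (𝓝[>] 0) := tendsto_fst
    have tv : Tendsto (fun t : ℝ × E n × E n => t.2.2) (𝓝[>] 0 ×ˢ 𝓝 ζ ×ˢ 𝓝 v) (𝓝 v) :=
      tendsto_snd.comp tendsto_snd
    have tV : Tendsto (fun t : ℝ × E n × E n => fderiv ℝ (fun z => e (B i0 z)) t.2.1 t.2.2)
        (𝓝[>] 0 ×ˢ 𝓝 ζ ×ˢ 𝓝 v) (𝓝 V) := by
      have h1 : Continuous fun p : E n × E n => fderiv ℝ (fun z => e (B i0 z)) p.1 p.2 :=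
        (((hq i0).continuous_fderiv (by simp)).comp continuous_fst).clm_apply continuous_snd
      have h2 := h1.tendsto (ζ, v)
      rw [nhds_prod_eq] at h2
      rw [hV]
      exact h2.comp tendsto_snd
    have hfst : Tendsto (fun t : ℝ × E n × E n => (t.1, t.2.1)) (𝓝[>] 0 ×ˢ 𝓝 ζ ×ˢ 𝓝 v) (𝓝[>] 0 ×ˢ 𝓝 ζ) :=
      tendsto_fst.prodMk (tendsto_fst.comp tendsto_snd)
    have hRid : fderiv ℝ (fun z => j (π z)) p (fderiv ℝ (fun z => j (g (B i0 z))) ζ v) =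
        fderiv ℝ (fun z => j (g (B i0 z))) ζ v := by
      have h3 : HasFDerivAt (fun z => j (π (j (g (B i0 z))))) ((fderiv ℝ (fun z => j (π z)) (j (g (B i0 ζ)))).comp
          (fderiv ℝ (fun z => j (g (B i0 z))) ζ)) ζ :=
        HasFDerivAt.comp (g := fun z => j (π z)) (f := fun z => j (g (B i0 z))) ζ
          (by rw [← hp]; exact (hRp.differentiableAt (by simp)).hasFDerivAt)
          ((hfc ζ hfl).differentiableAt (by simp)).hasFDerivAt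
      have h4 : (fun z => j (π (j (g (B i0 z))))) = fun z => j (g (B i0 z)) := by
        funext z
        rw [hπj]
      rw [h4, ← hp] at h3
      rw [← ContinuousLinearMap.comp_apply, ← h3.fderiv]
    -- the functional on the derivatives of `g`, after the retraction
    have tc1 : ∀ᶠ r : E k × (E n × E n) in 𝓝 p ×ˢ (𝓝 ζ ×ˢ 𝓝 v),
        c1 / 2 < ℓ (fderiv ℝ (fun z => j (π z)) r.1 (fderiv ℝ (fun z => j (g (B i0 z))) r.2.1 r.2.2)) := by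
      have h2 : ContinuousAt (fderiv ℝ (fun z => j (g (B i0 z)))) ζ :=
        ((hfc ζ hfl).fderiv_right (m := 0) (by simp)).continuousAt
      have h3 : Tendsto (fun r : E k × (E n × E n) => fderiv ℝ (fun z => j (g (B i0 z))) r.2.1 r.2.2)
          (𝓝 p ×ˢ (𝓝 ζ ×ˢ 𝓝 v)) (𝓝 (fderiv ℝ (fun z => j (g (B i0 z))) ζ v)) :=
        tendsto_app (h2.tendsto.comp (tendsto_fst.comp tendsto_snd)) (tendsto_snd.comp tendsto_snd)
      have h5 : Tendsto (fun r : E k × (E n × E n) => fderiv ℝ (fun z => j (π z)) r.1) (𝓝 p ×ˢ (𝓝 ζ ×ˢ 𝓝 v))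
          (𝓝 (fderiv ℝ (fun z => j (π z)) p)) :=
        ((hRp.fderiv_right (m := 0) (by simp)).continuousAt.tendsto).comp tendsto_fst
      have h4 := (ℓ.continuous.tendsto _).comp (tendsto_app h5 h3)
      rw [hRid, ← hc1] at h4
      exact h4.eventually (lt_mem_nhds (by linarith))
    obtain ⟨pa, hpa, pb, hpb, hpab⟩ := Filter.eventually_prod_iff.1 tc1
    obtain ⟨δ3, hδ3, hδ4⟩ := Metric.eventually_nhds_iff_ball.1 hpa
    have hpb' : ∀ᶠ t : ℝ × E n × E n in 𝓝[>] 0 ×ˢ 𝓝 ζ ×ˢ 𝓝 v, pb t.2 := tendsto_snd.eventually hpb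
    obtain ⟨κ, hκ⟩ : ∃ κ, κ = min c0 (c1 / 2) := ⟨_, rfl⟩
    have hκp : 0 < κ := by rw [hκ]; exact lt_min hc0 (by positivity)
    have hsev : ∀ᶠ s in 𝓝[>] (0 : ℝ), 0 < s := self_mem_nhdsWithin
    -- the accuracy
    obtain ⟨w, hw⟩ : ∃ w, w = η * ‖V‖ / 4 / (‖ℓ‖ * C1 + 1) := ⟨_, rfl⟩
    have hℓC : 0 ≤ ‖ℓ‖ * C1 := by positivity
    have hwp : 0 < w := by rw [hw]; positivity
    have hwC : w * (‖ℓ‖ * C1) ≤ η * ‖V‖ / 4 := by
      have h2 : w * (‖ℓ‖ * C1 + 1) = η * ‖V‖ / 4 := by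
        rw [hw]; field_simp
      nlinarith
    obtain ⟨δ1, hδ1, hδ2⟩ := retr_diff hRp hwp
    have hδ : 0 < min δ1 δ3 := lt_min hδ1 hδ3
    have hU : (fun x => j (g x)) ⁻¹' (ball p δ1) ∈ 𝓝 (B i0 ζ) := by
      rw [hp]
      exact hF.continuousAt (ball_mem_nhds _ hδ1)
    filter_upwards [hlow, hℓ (η * ‖V‖ / 4) (by positivity), tζ.eventually hball,
      ts.eventually hsev, hpb',
      tV.norm.eventually (lt_mem_nhds (show ‖V‖ / 2 < ‖V‖ by linarith)),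
      hfst.eventually (emb_near he (hBc i0).continuousAt hU), hfst.eventually (hseg _ hδ)]
      with t ht1 ht2 ht4 ht5 ht6 ht7 ht10 ht12 a ha0 ha1 hcon
    obtain ⟨z0, hz0⟩ : ∃ z0, z0 = j (g (B i0 t.2.1)) + a • (Gs ρ β (fun i z => e (B i z)) (fun i z => j (g (B i z)))
        t.1 (e (B i0 t.2.1)) - j (g (B i0 t.2.1))) := ⟨_, rfl⟩
    have hz0p := ht12 a ha0 ha1
    rw [← hz0] at hcon hz0p
    obtain ⟨ℓ', hℓ'⟩ : ∃ ℓ', ℓ' = ℓ.comp (fderiv ℝ (fun z => j (π z)) z0) := ⟨_, rfl⟩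
    have hℓ'e : ∀ x, ℓ' x = ℓ (fderiv ℝ (fun z => j (π z)) z0 x) := fun x => by rw [hℓ']; rfl
    obtain ⟨W, hW⟩ : ∃ W, W = fderiv ℝ (fun z => e (B i0 z)) t.2.1 t.2.2 := ⟨_, rfl⟩
    rw [← hW] at ht1 ht2 ht7 hcon
    have hZ := Zs_pos (ρ := ρ) (q := fun i z => e (B i z)) h1 hβ hβ0 hβs hβp (fun i => (hq i).continuous) i0
      (s := t.1) ht4
    have hcond : ∀ i z, ‖z‖ ≤ 1 → ‖e (B i z) - e (B i0 t.2.1)‖ ≤ t.1 →
        |ℓ' (j (g (B i z))) + -ℓ' (j (g (B i0 t.2.1))) - inner ℝ W (e (B i z) - e (B i0 t.2.1))| ≤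
          η * t.1 * ‖W‖ := by
      intro i z _ hz2
      obtain ⟨h4, h5⟩ := ht2 (B i z) hz2
      have h6 : ‖j (g (B i z)) - p‖ < δ1 := by
        have := ht10 _ hz2
        rw [mem_preimage, mem_ball, dist_eq_norm] at this
        exact this
      have h6' : ‖j (g (B i0 t.2.1)) - p‖ < δ1 := by
        have := ht10 (B i0 t.2.1) (by rw [sub_self, norm_zero]; exact ht5.le)
        rw [mem_preimage, mem_ball, dist_eq_norm] at this
        exact this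
      have h7 := hδ2 z0 (j (g (B i z))) (j (g (B i0 t.2.1))) (hz0p.trans_le (min_le_left _ _)) h6 h6'
        (by rw [hπj]) (by rw [hπj])
      have hWn : 0 < ‖W‖ := lt_of_le_of_lt (by positivity) ht7
      have h8 := move_rec (R := fun z => j (π z)) (ℓ := ℓ) (c := -ℓ (j (g (B i0 t.2.1))))
        (η := η * ‖V‖ / 4 / ‖W‖) (C := ‖ℓ‖ * C1) (s := t.1) (w := w) (V := W) (z := z0) (f0 := j (g (B i0 t.2.1)))
        (fu := j (g (B i z))) (x := e (B i z) - e (B i0 t.2.1)) (by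
          refine h4.trans (le_of_eq ?_)
          field_simp) (by
          rw [mul_assoc]
          exact mul_le_mul_of_nonneg_left h5 (norm_nonneg _)) hwp.le h7
      rw [← hℓ'] at h8
      have e2 : ℓ' (j (g (B i z))) + (-ℓ (j (g (B i0 t.2.1))) + ℓ (j (g (B i0 t.2.1))) - ℓ' (j (g (B i0 t.2.1)))) =
          ℓ' (j (g (B i z))) + -ℓ' (j (g (B i0 t.2.1))) := by ring
      rw [e2] at h8
      refine h8.trans ?_
      have e3 : η * ‖V‖ / 4 / ‖W‖ * t.1 * ‖W‖ = η * ‖V‖ / 4 * t.1 := by field_simp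
      rw [e3, ← mul_assoc]
      have h9 : w * (‖ℓ‖ * C1) * t.1 ≤ η * ‖V‖ / 4 * t.1 := mul_le_mul_of_nonneg_right hwC ht5.le
      have h10 : η * ‖V‖ / 4 * t.1 + η * ‖V‖ / 4 * t.1 = η * t.1 * (‖V‖ / 2) := by ring
      have h11 : η * t.1 * (‖V‖ / 2) ≤ η * t.1 * ‖W‖ :=
        mul_le_mul_of_nonneg_left ht7.le (mul_nonneg hη0.le ht5.le)
      linarith
    have b1 := ht1 hZ (fun i z => j (g (B i z))) hgc ℓ' _ hcond
    have e1 := congrArg ℓ hcon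
    rw [← hℓ'e, map_zero, map_add, map_smul, map_sub, smul_eq_mul] at e1
    obtain ⟨x1, hx1⟩ : ∃ x1, x1 = ℓ' (fderiv ℝ (fun z => j (g (B i0 z))) t.2.1 t.2.2) := ⟨_, rfl⟩
    obtain ⟨x2, hx2⟩ : ∃ x2, x2 = ℓ' (fderiv ℝ (Gs ρ β (fun i z => e (B i z)) (fun i z => j (g (B i z))) t.1)
      (e (B i0 t.2.1)) W) := ⟨_, rfl⟩
    have b0 : c1 / 2 < x1 := by
      rw [hx1, hℓ'e]
      exact hpab (hδ4 z0 (by rw [mem_ball, dist_eq_norm]; exact hz0p.trans_le (min_le_right _ _))) ht6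
    rw [← hx1] at e1
    rw [← hx2] at b1 e1
    have b7 : κ ≤ x1 := by
      rw [hκ]
      exact (min_le_right _ _).trans b0.le
    have b8 : κ ≤ x2 := by
      rw [hκ]
      exact (min_le_left _ _).trans b1
    have b10 : κ ≤ (1 - a) * x1 + a * x2 := by nlinarith
    linarith
  filter_upwards [hkey, hΩev] with t ht1 ht2 a ha0 ha1
  exact ⟨ht2 a ha0 ha1, fun v hv => ht1 v hv a ha0 ha1⟩

end Pool.Agent.H865_iso
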