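import Pool.Agent.H865_iso.Iso
import Pool.Agent.H865_iso.Fam
import Pool.Agent.H865_iso.Good

/-!
# Coarsely affine paths are close to smooth paths of local diffeomorphisms
-/

set_option autoImplicit false

open Set Filter Topology Metric Function MeasureTheory
open scoped Manifold ContDiff

noncomputable section

namespace Pool.Agent.H865_iso

open Pool.Agent.Y522 (LD)
open Pool.Agent.H865_small (E Zs kf kf_cont bump_supp Adm Imm imm_smooth Zs_pos q_smooth exists_chartB vol adm_exists)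
open Pool.Agent.H865_cl (Ns Gs Gs_smooth exists_retr)

theorem Gs_lin {n m k : ℕ} {ρ : ℝ} {ι : Type} [Fintype ι] {β : E n → ℝ} {q : ι → E n → E m}
    {g g' : ι → E n → E k} (hβ : Continuous β) (hβs : ∀ z, 1 < ‖z‖ → β z = 0) (hq : ∀ i, Continuous (q i))
    (hg : ∀ i, Continuous (g i)) (hg' : ∀ i, Continuous (g' i)) (a s : ℝ) (p : E m) :
    Gs ρ β q (fun i z => g i z + a • (g' i z - g i z)) s p =
      Gs ρ β q g s p + a • (Gs ρ β q g' s p - Gs ρ β q g s p) := by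
  have hsupp := bump_supp hβs
  have hk : ∀ i, Continuous fun z => β z * kf ρ s (q i z - p) := by
    intro i
    have hw : Continuous fun z => q i z - p := (hq i).sub continuous_const
    exact hβ.mul ((kf_cont s).comp hw)
  have hks : ∀ i, HasCompactSupport fun z => β z * kf ρ s (q i z - p) := fun i => hsupp.mul_right
  have hint : ∀ i, Integrable fun z => (β z * kf ρ s (q i z - p)) • g i z := fun i =>
    ((hk i).smul (hg i)).integrable_of_hasCompactSupport (hks i).smul_right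
  have hint' : ∀ i, Integrable fun z => (β z * kf ρ s (q i z - p)) • g' i z := fun i =>
    ((hk i).smul (hg' i)).integrable_of_hasCompactSupport (hks i).smul_right
  have hN : Ns ρ β q (fun i z => g i z + a • (g' i z - g i z)) s p =
      Ns ρ β q g s p + a • (Ns ρ β q g' s p - Ns ρ β q g s p) := by
    unfold Ns
    rw [← Finset.sum_sub_distrib, Finset.smul_sum, ← Finset.sum_add_distrib]
    refine Finset.sum_congr rfl fun i _ => ?_
    have hs1 : (∫ z, (β z * kf ρ s (q i z - p)) • g i z) + ∫ z, a • ((β z * kf ρ s (q i z - p)) • g' i z -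
        (β z * kf ρ s (q i z - p)) • g i z) = ∫ z, ((β z * kf ρ s (q i z - p)) • g i z +
        a • ((β z * kf ρ s (q i z - p)) • g' i z - (β z * kf ρ s (q i z - p)) • g i z)) :=
      (integral_add (hint i) (((hint' i).sub (hint i)).smul a)).symm
    rw [← integral_sub (hint' i) (hint i), ← integral_smul, hs1]
    congr 1
    funext z
    simp only
    module
  unfold Gs
  rw [hN]
  module

theorem iso_main (d m k : ℕ) (M N T : Type) [TopologicalSpace M] [TopologicalSpace N] [TopologicalSpace T]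
    [CompactSpace M] [T2Space M] [CompactSpace N] [T2Space N] [CompactSpace T] [PreconnectedSpace T] [Nonempty N]
    [ChartedSpace (E (d + 1)) M] [ChartedSpace (E (d + 1)) N]
    [IsManifold (𝓡 (d + 1)) ∞ M] [IsManifold (𝓡 (d + 1)) ∞ N]
    (e : M → E m) (he : Continuous e) (hei : Injective e) (heI : ∀ x, Imm (n := d + 1) e x)
    (j : N → E k) (hj : Continuous j) (hji : Injective j) (hjI : ∀ y, Imm (n := d + 1) j y)
    (f : T → M → N) (hf : Continuous fun p : T × M => f p.1 p.2)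
    (S : Set ℝ) (hS : ∃ᶠ s in 𝓝[>] (0 : ℝ), s ∈ S) {η0 η : ℝ} (hη0 : 0 < η0) (hηη : η0 < η)
    (hη : η < vol (d + 1) / (2 * vol d))
    (hrec : ∀ t x, TF (n := d + 1) e (fun t x => j (f t x)) S η0 t x)
    (t0 t1 : T) (h0 : ∀ x, LD (d + 1) (f t0) x) (h1 : ∀ x, LD (d + 1) (f t1) x) :
    LDIso (d + 1) (f t0) (f t1) := by
  classical
  obtain ⟨π, Ω, hΩ, hjΩ, hπj, hπc, hπs, hπ2⟩ := exists_retr (n := d + 1) hj hji hjI
  obtain ⟨ρ, hρ, hA⟩ := adm_exists (hη0.trans hηη).le hη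
  have hee : IsEmbedding e := (he.isClosedEmbedding hei).isEmbedding
  obtain ⟨β, hβe⟩ : ∃ β : E (d + 1) → ℝ, β = fun z => max 0 (1 - ‖z‖) := ⟨_, rfl⟩
  have hβ : Continuous β := by rw [hβe]; fun_prop
  have hβ0 : ∀ z, 0 ≤ β z := fun z => by rw [hβe]; exact le_max_left _ _
  have hβs : ∀ z, 1 < ‖z‖ → β z = 0 := fun z hz => by rw [hβe]; exact max_eq_left (by linarith)
  have hβp : ∀ z, ‖z‖ < 1 → 0 < β z := fun z hz => by
    rw [hβe]; exact lt_max_of_lt_right (by linarith)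
  -- the charts
  choose Bx hBx0 hBxi hBxl using fun x : M => exists_chartB (n := d + 1) x
  have hBo : ∀ x, IsOpen (Bx x '' ball 0 1) := fun x =>
    Pool.Agent.Y522.isOpen_image_of_LD isOpen_ball fun z _ => hBxl x z
  obtain ⟨t, htK⟩ := (isCompact_univ (X := M)).elim_finite_subcover (fun x => Bx x '' ball 0 1) hBo (by
    intro x _
    exact mem_iUnion.2 ⟨x, 0, by simp, hBx0 x⟩)
  obtain ⟨B, hBe⟩ : ∃ B : t → E (d + 1) → M, B = fun i : t => Bx i.1 := ⟨_, rfl⟩
  have hBi : ∀ i, Injective (B i) := fun i => by rw [hBe]; exact hBxi _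
  have hBl : ∀ i z, LD (d + 1) (B i) z := fun i z => by rw [hBe]; exact hBxl _ z
  have hBc : ∀ i, Continuous (B i) := fun i => continuous_iff_continuousAt.2 fun z => (hBl i z).continuousAt
  have hcov : ∀ x : M, ∃ (i : t) (ζ : E (d + 1)), ‖ζ‖ < 1 ∧ B i ζ = x := by
    intro x
    obtain ⟨y, hy⟩ := mem_iUnion.1 (htK (mem_univ x))
    obtain ⟨hyt, ζ, hζ, hx⟩ := mem_iUnion.1 hy
    exact ⟨⟨y, hyt⟩, ζ, by rwa [mem_ball_zero_iff] at hζ, by rw [hBe]; exact hx⟩
  have hq : ∀ i, ContDiff ℝ ∞ (fun z => e (B i z)) := q_smooth heI hBl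
  have hF : ∀ t, Continuous fun x => j (f t x) := fun t => hj.comp (hf.comp (by fun_prop : Continuous fun x => (t, x)))
  have hgc : ∀ t i, Continuous (fun z => j (f t (B i z))) := fun t i => (hF t).comp (hBc i)
  -- local inverses of the charts
  have hinv : ∀ (i : t) (ζ : E (d + 1)), ‖ζ‖ < 1 → ∃ b : M → E (d + 1), Tendsto b (𝓝 (B i ζ)) (𝓝 ζ) ∧
      ∀ᶠ x in 𝓝 (B i ζ), B i (b x) = x ∧ ‖b x‖ < 1 := by
    intro i ζ hζ
    obtain ⟨b, hb, hb0, -, hb2⟩ := (hBl i ζ).exists_inverse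
    have hbt : Tendsto b (𝓝 (B i ζ)) (𝓝 ζ) := by
      have := hb.continuousAt.tendsto
      rwa [hb0] at this
    have hb1 : ∀ᶠ y in 𝓝 ζ, ‖y‖ < 1 := by
      have := isOpen_ball.mem_nhds (show ζ ∈ ball (0 : E (d + 1)) 1 by rw [mem_ball_zero_iff]; exact hζ)
      filter_upwards [this] with y hy
      rwa [mem_ball_zero_iff] at hy
    exact ⟨b, hbt, hb2.and (hbt.eventually hb1)⟩
  -- the family, at all points
  have hfam : ∀ᶠ a : ℝ × ℝ in 𝓝[>] 0 ×ˢ 𝓝[>] 0, ∀ (x : M) (t' : T), a.1 ∈ S → ∃ (i : t) (y : E (d + 1)), ‖y‖ < 1 ∧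
      B i y = x ∧ ∀ h : M → E k, Continuous h → (∀ x, ‖h x - j (f t' x)‖ ≤ a.2 * a.1) →
      Gs ρ β (fun i z => e (B i z)) (fun i z => h (B i z)) a.1 (e (B i y)) ∈ Ω ∧ ∀ v : E (d + 1), ‖v‖ = 1 →
      fderiv ℝ (fun z => j (π z)) (Gs ρ β (fun i z => e (B i z)) (fun i z => h (B i z)) a.1 (e (B i y)))
        (fderiv ℝ (Gs ρ β (fun i z => e (B i z)) (fun i z => h (B i z)) a.1) (e (B i y))
          (fderiv ℝ (fun z => e (B i z)) y v)) ≠ 0 := by
    have hloc : ∀ p ∈ (univ : Set (M × T)), {q : (ℝ × ℝ) × (M × T) | q.1.1 ∈ S → ∃ (i : t) (y : E (d + 1)), ‖y‖ < 1 ∧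
        B i y = q.2.1 ∧ ∀ h : M → E k, Continuous h → (∀ x, ‖h x - j (f q.2.2 x)‖ ≤ q.1.2 * q.1.1) →
        Gs ρ β (fun i z => e (B i z)) (fun i z => h (B i z)) q.1.1 (e (B i y)) ∈ Ω ∧ ∀ v : E (d + 1), ‖v‖ = 1 →
        fderiv ℝ (fun z => j (π z)) (Gs ρ β (fun i z => e (B i z)) (fun i z => h (B i z)) q.1.1 (e (B i y)))
          (fderiv ℝ (Gs ρ β (fun i z => e (B i z)) (fun i z => h (B i z)) q.1.1) (e (B i y))
            (fderiv ℝ (fun z => e (B i z)) y v)) ≠ 0} ∈ (𝓝[>] (0 : ℝ) ×ˢ 𝓝[>] (0 : ℝ)) ×ˢ 𝓝 p := by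
      rintro ⟨x0, s0⟩ -
      obtain ⟨i, ζ, hζ, hx⟩ := hcov x0
      subst hx
      obtain ⟨b, hbt, hb2⟩ := hinv i ζ hζ
      have hlow := fam_low (g := f) hρ hηη hA hβ hβ0 hβs hβp hee heI hf hj hBi hBl hΩ hjΩ hπj hπs i hζ
        (hrec s0 (B i ζ))
      have ht : Tendsto (fun q : (ℝ × ℝ) × (M × T) => ((q.1.1, b q.2.1), (q.1.2, q.2.2)))
          ((𝓝[>] (0 : ℝ) ×ˢ 𝓝[>] (0 : ℝ)) ×ˢ 𝓝 (B i ζ, s0)) ((𝓝[>] 0 ×ˢ 𝓝 ζ) ×ˢ (𝓝[>] 0 ×ˢ 𝓝 s0)) := by
        rw [nhds_prod_eq]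
        exact ((tendsto_fst.comp tendsto_fst).prodMk (hbt.comp (tendsto_fst.comp tendsto_snd))).prodMk
          ((tendsto_snd.comp tendsto_fst).prodMk (tendsto_snd.comp tendsto_snd))
      have hb3 : ∀ᶠ q : (ℝ × ℝ) × (M × T) in (𝓝[>] (0 : ℝ) ×ˢ 𝓝[>] (0 : ℝ)) ×ˢ 𝓝 (B i ζ, s0),
          B i (b q.2.1) = q.2.1 ∧ ‖b q.2.1‖ < 1 := by
        rw [nhds_prod_eq]
        exact (tendsto_fst.comp tendsto_snd).eventually hb2
      filter_upwards [ht.eventually hlow, hb3] with q hq1 hq2 hqS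
      exact ⟨i, b q.2.1, hq2.2, hq2.1, hq1 hqS⟩
    have h2 := (isCompact_univ (X := M × T)).mem_prod_nhdsSet_of_forall hloc
    obtain ⟨U, hU, V, hV, hUV⟩ := Filter.mem_prod_iff.1 h2
    filter_upwards [hU] with a ha x t'
    exact hUV (show (a, (x, t')) ∈ U ×ˢ V from ⟨ha, subset_of_mem_nhdsSet hV (mem_univ _)⟩)
  -- the ends
  have hend : ∀ t' : T, (∀ x, LD (d + 1) (f t') x) → ∀ᶠ s : ℝ in 𝓝[>] 0, ∀ x : M, ∃ (i : t) (y : E (d + 1)), ‖y‖ < 1 ∧
      B i y = x ∧ ∀ a : ℝ, 0 ≤ a → a ≤ 1 →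
      j (f t' (B i y)) + a • (Gs ρ β (fun i z => e (B i z)) (fun i z => j (f t' (B i z))) s (e (B i y)) -
        j (f t' (B i y))) ∈ Ω ∧ ∀ v : E (d + 1), ‖v‖ = 1 →
      fderiv ℝ (fun z => j (π z)) (j (f t' (B i y)) + a • (Gs ρ β (fun i z => e (B i z))
        (fun i z => j (f t' (B i z))) s (e (B i y)) - j (f t' (B i y)))) (fderiv ℝ (fun z => j (f t' (B i z))) y v +
        a • (fderiv ℝ (Gs ρ β (fun i z => e (B i z)) (fun i z => j (f t' (B i z))) s) (e (B i y))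
          (fderiv ℝ (fun z => e (B i z)) y v) - fderiv ℝ (fun z => j (f t' (B i z))) y v)) ≠ 0 := by
    intro t' hLD
    have hft : Continuous (f t') := hf.comp (by fun_prop : Continuous fun x => (t', x))
    have hloc : ∀ p ∈ (univ : Set M), {q : ℝ × M | ∃ (i : t) (y : E (d + 1)), ‖y‖ < 1 ∧
        B i y = q.2 ∧ ∀ a : ℝ, 0 ≤ a → a ≤ 1 →
        j (f t' (B i y)) + a • (Gs ρ β (fun i z => e (B i z)) (fun i z => j (f t' (B i z))) q.1 (e (B i y)) -
          j (f t' (B i y))) ∈ Ω ∧ ∀ v : E (d + 1), ‖v‖ = 1 →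
        fderiv ℝ (fun z => j (π z)) (j (f t' (B i y)) + a • (Gs ρ β (fun i z => e (B i z))
          (fun i z => j (f t' (B i z))) q.1 (e (B i y)) - j (f t' (B i y))))
          (fderiv ℝ (fun z => j (f t' (B i z))) y v +
          a • (fderiv ℝ (Gs ρ β (fun i z => e (B i z)) (fun i z => j (f t' (B i z))) q.1) (e (B i y))
            (fderiv ℝ (fun z => e (B i z)) y v) - fderiv ℝ (fun z => j (f t' (B i z))) y v)) ≠ 0} ∈
        𝓝[>] (0 : ℝ) ×ˢ 𝓝 p := by
      rintro x0 -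
      obtain ⟨i, ζ, hζ, hx⟩ := hcov x0
      subst hx
      obtain ⟨b, hbt, hb2⟩ := hinv i ζ hζ
      have hlow := good_low (g := f t') hρ (hη0.trans hηη) hA hβ hβ0 hβs hβp hee heI hft hj hjI hBi hBl hΩ hjΩ hπj hπs
        i hζ (hLD _)
      have ht : Tendsto (fun q : ℝ × M => (q.1, b q.2)) (𝓝[>] (0 : ℝ) ×ˢ 𝓝 (B i ζ)) (𝓝[>] 0 ×ˢ 𝓝 ζ) :=
        tendsto_fst.prodMk (hbt.comp tendsto_snd)
      filter_upwards [ht.eventually hlow, tendsto_snd.eventually hb2] with q hq1 hq2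
      exact ⟨i, b q.2, hq2.2, hq2.1, hq1⟩
    have h2 := (isCompact_univ (X := M)).mem_prod_nhdsSet_of_forall hloc
    obtain ⟨U, hU, V, hV, hUV⟩ := Filter.mem_prod_iff.1 h2
    filter_upwards [hU] with a ha x
    exact hUV (show (a, x) ∈ U ×ˢ V from ⟨ha, subset_of_mem_nhdsSet hV (mem_univ _)⟩)
  -- the scale
  obtain ⟨pa, hpa, pb, hpb, hpab⟩ := Filter.eventually_prod_iff.1 hfam
  have hpos : ∀ᶠ s : ℝ in 𝓝[>] 0, 0 < s := self_mem_nhdsWithin
  obtain ⟨ϑ, hϑ, hϑ0⟩ := (hpb.and hpos).exists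
  obtain ⟨s, hsS, hs1, hs2, hs3, hs0⟩ := (hS.and_eventually (hpa.and ((hend t0 h0).and ((hend t1 h1).and hpos)))).exists
  obtain ⟨A, hAe⟩ : ∃ A : T → M → E k, A = fun t' x =>
    Gs ρ β (fun i z => e (B i z)) (fun i z => j (f t' (B i z))) s (e x) := ⟨_, rfl⟩
  have hZ : ∀ x, Zs ρ β (fun i z => e (B i z)) s (e x) ≠ 0 := by
    intro x
    obtain ⟨i, ζ, hζ, hx⟩ := hcov x
    subst hx
    exact (Zs_pos (q := fun i z => e (B i z)) hρ hβ hβ0 hβs hβp (fun i => (hq i).continuous) i hζ).ne'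
  have hGsm : ∀ t' x, ContDiffAt ℝ ∞ (Gs ρ β (fun i z => e (B i z)) (fun i z => j (f t' (B i z))) s) (e x) :=
    fun t' x => Gs_smooth (g := fun i z => j (f t' (B i z))) hβ hβs hq (hgc t') s (hZ x)
  have hAc : ∀ t', Continuous (A t') := by
    intro t'
    rw [hAe, continuous_iff_continuousAt]
    intro x
    exact ContinuousAt.comp (f := e) (hGsm t' x).continuousAt he.continuousAt
  have hAs : ∀ t' i y, ContDiffAt ℝ ∞ (fun z => A t' (B i z)) y := by
    intro t' i y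
    rw [hAe]
    exact ContDiffAt.comp (g := Gs ρ β (fun i z => e (B i z)) (fun i z => j (f t' (B i z))) s)
      (f := fun z => e (B i z)) y (hGsm t' _) (hq i).contDiffAt
  have hAd : ∀ t' i y v, fderiv ℝ (fun z => A t' (B i z)) y v =
      fderiv ℝ (Gs ρ β (fun i z => e (B i z)) (fun i z => j (f t' (B i z))) s) (e (B i y))
        (fderiv ℝ (fun z => e (B i z)) y v) := by
    intro t' i y v
    rw [hAe]
    have h2 : HasFDerivAt (fun z => Gs ρ β (fun i z => e (B i z)) (fun i z => j (f t' (B i z))) s (e (B i z)))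
        ((fderiv ℝ (Gs ρ β (fun i z => e (B i z)) (fun i z => j (f t' (B i z))) s) (e (B i y))).comp
          (fderiv ℝ (fun z => e (B i z)) y)) y :=
      HasFDerivAt.comp (g := Gs ρ β (fun i z => e (B i z)) (fun i z => j (f t' (B i z))) s)
        (f := fun z => e (B i z)) y ((hGsm t' _).differentiableAt (by simp)).hasFDerivAt
        ((hq i).differentiable (by simp) _).hasFDerivAt
    rw [h2.fderiv]
    rfl
  -- the ends are joined to the averages
  have hjoin : ∀ t' : T, (∀ x, LD (d + 1) (f t') x) → (∀ x : M, ∃ (i : t) (y : E (d + 1)), ‖y‖ < 1 ∧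
      B i y = x ∧ ∀ a : ℝ, 0 ≤ a → a ≤ 1 →
      j (f t' (B i y)) + a • (Gs ρ β (fun i z => e (B i z)) (fun i z => j (f t' (B i z))) s (e (B i y)) -
        j (f t' (B i y))) ∈ Ω ∧ ∀ v : E (d + 1), ‖v‖ = 1 →
      fderiv ℝ (fun z => j (π z)) (j (f t' (B i y)) + a • (Gs ρ β (fun i z => e (B i z))
        (fun i z => j (f t' (B i z))) s (e (B i y)) - j (f t' (B i y)))) (fderiv ℝ (fun z => j (f t' (B i z))) y v +
        a • (fderiv ℝ (Gs ρ β (fun i z => e (B i z)) (fun i z => j (f t' (B i z))) s) (e (B i y))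
          (fderiv ℝ (fun z => e (B i z)) y v) - fderiv ℝ (fun z => j (f t' (B i z))) y v)) ≠ 0) →
      LDIso (d + 1) (f t') (fun x => π (A t' x)) := by
    intro t' hLD hx
    have h2 := lin_iso (n := d + 1) (j := j) hBl hjI hΩ hπc hπs (G0 := fun x => j (f t' x)) (G1 := A t') (hF t')
      (hAc t') (fun i y _ => (imm_smooth (B := fun z => f t' (B i z)) (hjI _)
        (Pool.Agent.Y522.LD.comp_fun (hLD _) (hBl i y))).1) (fun i y _ => hAs t' i y) (fun x => by
        obtain ⟨i, y, hy, hyx, h3⟩ := hx x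
        refine ⟨i, y, hy, hyx, fun a ha0 ha1 => ?_⟩
        obtain ⟨h4, h5⟩ := h3 a ha0 ha1
        have e1 : A t' (B i y) = Gs ρ β (fun i z => e (B i z)) (fun i z => j (f t' (B i z))) s (e (B i y)) := by
          rw [hAe]
        simp only [e1, hAd]
        exact ⟨h4, h5⟩)
    have h3 : (fun x => π (j (f t' x))) = f t' := funext fun x => hπj _
    rw [h3] at h2
    exact h2
  -- the averages are joined to each other
  have hstep : ∀ t' : T, ∀ᶠ t'' in 𝓝 t', LDIso (d + 1) (fun x => π (A t' x)) (fun x => π (A t'' x)) := by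
    intro t'
    have hclose : ∀ᶠ t'' in 𝓝 t', ∀ x ∈ (univ : Set M), ‖j (f t'' x) - j (f t' x)‖ ≤ ϑ * s := by
      refine isCompact_univ.eventually_forall_of_forall_eventually fun x _ => ?_
      have hc : Continuous fun p : T × M => ‖j (f p.1 p.2) - j (f t' p.2)‖ :=
        ((hj.comp hf).sub ((hF t').comp continuous_snd)).norm
      have h2 := hc.tendsto (t', x)
      rw [sub_self, norm_zero] at h2
      filter_upwards [h2.eventually (gt_mem_nhds (show 0 < ϑ * s by positivity))] with p hp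
      exact hp.le
    filter_upwards [hclose] with t'' ht''
    refine lin_iso (n := d + 1) (j := j) hBl hjI hΩ hπc hπs (hAc t') (hAc t'') (fun i y _ => hAs t' i y)
      (fun i y _ => hAs t'' i y) fun x => ?_
    obtain ⟨i, y, hy, hyx, h3⟩ := hpab hs1 hϑ x t' hsS
    refine ⟨i, y, hy, hyx, fun a ha0 ha1 => ?_⟩
    obtain ⟨h4, h5⟩ := h3 (fun x => j (f t' x) + a • (j (f t'' x) - j (f t' x)))
      ((hF t').add ((continuous_const (y := a)).smul ((hF t'').sub (hF t')))) (fun x => by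
        have e1 : j (f t' x) + a • (j (f t'' x) - j (f t' x)) - j (f t' x) = a • (j (f t'' x) - j (f t' x)) := by abel
        rw [e1, norm_smul, Real.norm_eq_abs, abs_of_nonneg ha0]
        calc a * ‖j (f t'' x) - j (f t' x)‖ ≤ 1 * ‖j (f t'' x) - j (f t' x)‖ :=
              mul_le_mul_of_nonneg_right ha1 (norm_nonneg _)
          _ ≤ ϑ * s := by rw [one_mul]; exact ht'' x (mem_univ _))
    have e2 : Gs ρ β (fun i z => e (B i z)) (fun i z => j (f t' (B i z)) + a • (j (f t'' (B i z)) - j (f t' (B i z)))) s =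
        fun p => Gs ρ β (fun i z => e (B i z)) (fun i z => j (f t' (B i z))) s p +
          a • (Gs ρ β (fun i z => e (B i z)) (fun i z => j (f t'' (B i z))) s p -
            Gs ρ β (fun i z => e (B i z)) (fun i z => j (f t' (B i z))) s p) := by
      funext p
      exact Gs_lin (g := fun i z => j (f t' (B i z))) (g' := fun i z => j (f t'' (B i z))) hβ hβs
        (fun i => (hq i).continuous) (hgc t') (hgc t'') a s p
    have d1 := ((hGsm t' (B i y)).differentiableAt (by simp)).hasFDerivAt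
    have d2 := ((hGsm t'' (B i y)).differentiableAt (by simp)).hasFDerivAt
    have e3 := (d1.fun_add ((d2.fun_sub d1).fun_const_smul a)).fderiv
    simp only [e2] at h4 h5
    simp only [e3] at h5
    have e4 : ∀ t', A t' (B i y) = Gs ρ β (fun i z => e (B i z)) (fun i z => j (f t' (B i z))) s (e (B i y)) := by
      intro t'; rw [hAe]
    simp only [e4, hAd]
    exact ⟨h4, h5⟩
  have hall : LDIso (d + 1) (fun x => π (A t0 x)) (fun x => π (A t1 x)) := by
    refine PreconnectedSpace.induction₂' (fun t' t'' => LDIso (d + 1) (fun x => π (A t' x)) (fun x => π (A t'' x)))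
      (fun t' => ?_) ⟨fun _ _ _ h h' => h.trans h'⟩ t0 t1
    filter_upwards [hstep t'] with t'' h
    exact ⟨h, h.symm⟩
  exact (hjoin t0 h0 hs2).trans (hall.trans (hjoin t1 h1 hs3).symm)

end Pool.Agent.H865_iso
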