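import Pool.Agent.H865_iso.Fam
import Pool.Agent.H865_small.Forms

/-!
# Locally uniformly bi-Lipschitz paths and coarse coordinates of paths
-/

set_option autoImplicit false
set_option linter.unusedSectionVars false

open Set Filter Topology Metric Function MeasureTheory
open scoped Manifold ContDiff

noncomputable section

namespace Pool.Agent.H865_iso

open Pool.Agent.Y522 (LD)
open Pool.Agent.H865_small (E Imm imm_smooth emb_near dir_approx pair_sum polar_ineq)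

variable {n m k : ℕ} {X T : Type} [TopologicalSpace X] [TopologicalSpace T] {e : X → E m} {F : T → X → E k}

/-- near `(t0, x)` all the maps `F t`, multiplied by one factor, are `K`-bi-Lipschitz -/
def BLF (e : X → E m) (F : T → X → E k) (K : ℝ) (t0 : T) (x : X) : Prop :=
  ∃ W ∈ 𝓝 t0, ∃ U ∈ 𝓝 x, ∃ κ : ℝ, ∀ t ∈ W, ∀ u ∈ U, ∀ w ∈ U,
    ‖e u - e w‖ ≤ κ * ‖F t u - F t w‖ ∧ κ * ‖F t u - F t w‖ ≤ K * ‖e u - e w‖

/-- the condition on pairs of points, for one map -/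
def Pair1 (e : X → E m) (F : X → E k) (U : Set X) (C μ η : ℝ) (y : X) (s : ℝ) : Prop :=
    (∀ u ∈ U, ∀ a ∈ U, ‖e u - e y‖ ≤ s → ‖e a - e y‖ ≤ s → μ * ‖F u - F a‖ ^ 2 ≤ C * s ^ 2 ∧
      μ * ‖F u - F a‖ ≤ C * s) ∧
    ∀ u ∈ U, ∀ a ∈ U, ∀ b ∈ U,
    ‖e u - e y‖ ≤ s → ‖e a - e y‖ ≤ s → ‖e b - e y‖ ≤ s → ∀ δ : ℝ, 0 ≤ δ →
      ‖e u - e a‖ ^ 2 + ‖e u - e b‖ ^ 2 ≤ 4 * (1 + δ) * s ^ 2 →
        |μ * ‖F u - F a‖ ^ 2 - ‖e u - e a‖ ^ 2| + |μ * ‖F u - F b‖ ^ 2 - ‖e u - e b‖ ^ 2| ≤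
          4 * η * (1 + δ) * s ^ 2

theorem Pair1_of_BL {η K κ : ℝ} {F : X → E k} {U : Set X} (hη : 0 ≤ η) (h : (K ^ 2 - 1) / (K ^ 2 + 1) ≤ η)
    (hbl : ∀ u ∈ U, ∀ w ∈ U, ‖e u - e w‖ ≤ κ * ‖F u - F w‖ ∧ κ * ‖F u - F w‖ ≤ K * ‖e u - e w‖)
    {y : X} {s : ℝ} (hs : 0 < s) :
    Pair1 e F U (8 + 4 * |κ| * |K|) (2 * κ ^ 2 / (K ^ 2 + 1)) η y s := by
  have hK : 0 < K ^ 2 + 1 := by positivity
  have hkK : 0 ≤ 4 * |κ| * |K| := by positivity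
  refine ⟨?_, ?_⟩
  · intro u hu a ha hue hae
    have h1 := (hbl u hu a ha)
    have h2 : ‖e u - e a‖ ≤ 2 * s := by
      have : e u - e a = (e u - e y) - (e a - e y) := by abel
      rw [this]
      refine (norm_sub_le _ _).trans ?_
      linarith
    have h4 : 0 ≤ κ * ‖F u - F a‖ := (norm_nonneg _).trans h1.1
    constructor
    · have h3 : (κ * ‖F u - F a‖) ^ 2 ≤ (K * ‖e u - e a‖) ^ 2 := pow_le_pow_left₀ h4 h1.2 2
      have h5 : ‖e u - e a‖ ^ 2 ≤ (2 * s) ^ 2 := pow_le_pow_left₀ (norm_nonneg _) h2 2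
      have e1 : 2 * κ ^ 2 / (K ^ 2 + 1) * ‖F u - F a‖ ^ 2 = 2 * (κ * ‖F u - F a‖) ^ 2 / (K ^ 2 + 1) := by ring
      have h7 : 2 * κ ^ 2 / (K ^ 2 + 1) * ‖F u - F a‖ ^ 2 ≤ 8 * s ^ 2 := by
        rw [e1, div_le_iff₀ hK]
        have h6 : (K * ‖e u - e a‖) ^ 2 = K ^ 2 * ‖e u - e a‖ ^ 2 := by ring
        rw [h6] at h3
        nlinarith [sq_nonneg K, mul_le_mul_of_nonneg_left h5 (sq_nonneg K), sq_nonneg s]
      nlinarith [sq_nonneg s, mul_nonneg hkK (sq_nonneg s)]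
    · have h3 : κ * ‖F u - F a‖ ≤ |K| * (2 * s) :=
        h1.2.trans ((mul_le_mul_of_nonneg_right (le_abs_self K) (norm_nonneg _)).trans
          (mul_le_mul_of_nonneg_left h2 (abs_nonneg K)))
      have e1 : 2 * κ ^ 2 / (K ^ 2 + 1) * ‖F u - F a‖ = 2 * κ * (κ * ‖F u - F a‖) / (K ^ 2 + 1) := by ring
      rw [e1, div_le_iff₀ hK]
      have h5 : 2 * κ * (κ * ‖F u - F a‖) ≤ 2 * |κ| * (|K| * (2 * s)) := by
        refine (mul_le_mul_of_nonneg_right (show 2 * κ ≤ 2 * |κ| by have := le_abs_self κ; linarith) h4).trans ?_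
        exact mul_le_mul_of_nonneg_left h3 (by positivity)
      have h6 : 2 * |κ| * (|K| * (2 * s)) ≤ (8 + 4 * |κ| * |K|) * s := by nlinarith
      have h7 : (8 + 4 * |κ| * |K|) * s ≤ (8 + 4 * |κ| * |K|) * s * (K ^ 2 + 1) := by
        have h8 : 0 ≤ (8 + 4 * |κ| * |K|) * s := by positivity
        nlinarith [mul_nonneg h8 (sq_nonneg K)]
      linarith
  intro u hu a ha b hb hue hae hbe δ hδ hD
  have hsq : ∀ G D : ℝ, 0 ≤ D → D ≤ κ * G → κ * G ≤ K * D → |2 * κ ^ 2 / (K ^ 2 + 1) * G ^ 2 - D ^ 2| ≤ η * D ^ 2 := by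
    intro G D hD h1 h2
    have h3 : D ^ 2 ≤ (κ * G) ^ 2 := by nlinarith
    have h4 : (κ * G) ^ 2 ≤ (K * D) ^ 2 := by nlinarith
    have e1 : 2 * κ ^ 2 / (K ^ 2 + 1) * G ^ 2 = 2 * (κ * G) ^ 2 / (K ^ 2 + 1) := by ring
    have h5 : K ^ 2 - 1 ≤ η * (K ^ 2 + 1) := (div_le_iff₀ hK).1 h
    rw [e1, abs_le]
    constructor
    · rw [le_sub_iff_add_le, le_div_iff₀ hK]
      nlinarith [sq_nonneg D]
    · rw [sub_le_iff_le_add, div_le_iff₀ hK]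
      nlinarith [sq_nonneg D]
  have h1 := hbl u hu a ha
  have h2 := hbl u hu b hb
  have h3 := hsq _ _ (norm_nonneg _) h1.1 h1.2
  have h4 := hsq _ _ (norm_nonneg _) h2.1 h2.2
  nlinarith

variable [ChartedSpace (E n) X]

theorem TF_of_BLF (he : IsEmbedding e) (hI : ∀ x, Imm (n := n) e x) {S : Set ℝ} {η η' : ℝ} (hη : 0 < η)
    (hηη : η < η') {x : X} {t0 : T} {K : ℝ} (hK : (K ^ 2 - 1) / (K ^ 2 + 1) ≤ η) (hp : BLF e F K t0 x) :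
    TF (n := n) e F S η' t0 x := by
  intro B ζ hx hBi hBl v hv
  subst hx
  obtain ⟨Wt, hWt, U, hU, κ, hrec0⟩ := hp
  obtain ⟨C, hC⟩ : ∃ C, C = 8 + 4 * |κ| * |K| := ⟨_, rfl⟩
  obtain ⟨μ, hμe⟩ : ∃ μ, μ = 2 * κ ^ 2 / (K ^ 2 + 1) := ⟨_, rfl⟩
  have hμ0 : 0 ≤ μ := by rw [hμe]; positivity
  have hrec : ∀ t' ∈ Wt, ∀ y : X, ∀ s : ℝ, 0 < s → Pair1 e (F t') U C μ η y s := fun t' ht' y s hs => by
    rw [hC, hμe]; exact Pair1_of_BL hη.le hK (hrec0 t' ht') hs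
  have hBc : Continuous B := continuous_iff_continuousAt.2 fun z => (hBl z).continuousAt
  have hq : ContDiff ℝ ∞ (fun z => e (B z)) := contDiff_iff_contDiffAt.2 fun z => (imm_smooth (hI _) (hBl z)).1
  have hqd : ∀ z, Injective (fderiv ℝ (fun z => e (B z)) z) := fun z => (imm_smooth (hI _) (hBl z)).2
  have hV0 : fderiv ℝ (fun z => e (B z)) ζ v ≠ 0 := fun h => hv (hqd ζ (by rw [h, map_zero]))
  have hUev : ∀ᶠ y in 𝓝 ζ, B y ∈ U := hBc.continuousAt.eventually hU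
  have hrev : ∀ᶠ s in 𝓝[>] (0 : ℝ), 0 < s ∧ s < 1 := Ioo_mem_nhdsGT one_pos
  have hfst : Tendsto (fun t : ℝ × E n × E n => (t.1, t.2.1)) (𝓝[>] 0 ×ˢ 𝓝 ζ ×ˢ 𝓝 v) (𝓝[>] 0 ×ˢ 𝓝 ζ) :=
    tendsto_fst.prodMk (tendsto_fst.comp tendsto_snd)
  obtain ⟨δ, hδ⟩ : ∃ δ, δ = (η' - η) / (η + η' + 1) := ⟨_, rfl⟩
  have hη' : 0 < η' := hη.trans hηη
  have hδp : 0 < δ := by rw [hδ]; exact div_pos (by linarith) (by linarith)
  have hδ1 : δ < 1 := by rw [hδ, div_lt_one (by linarith)]; linarith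
  have hδe : δ * (η + η' + 1) = η' - η := by rw [hδ]; field_simp
  have tV : Tendsto (fun t : ℝ × E n × E n => fderiv ℝ (fun z => e (B z)) t.2.1 t.2.2)
      (𝓝[>] 0 ×ˢ 𝓝 ζ ×ˢ 𝓝 v) (𝓝 (fderiv ℝ (fun z => e (B z)) ζ v)) := by
    have h1 : Continuous fun p : E n × E n => fderiv ℝ (fun z => e (B z)) p.1 p.2 :=
      ((hq.continuous_fderiv (by simp)).comp continuous_fst).clm_apply continuous_snd
    have h2 := h1.tendsto (ζ, v)
    rw [nhds_prod_eq] at h2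
    exact h2.comp tendsto_snd
  refine ⟨(‖fderiv ℝ (fun z => e (B z)) ζ v‖ + 1) * |C| / (2 * (1 - δ)), by
    have : 0 < 1 - δ := by linarith
    positivity, ?_⟩
  have hT : ∀ᶠ t' in 𝓝 t0, t' ∈ Wt := hWt
  filter_upwards [tendsto_fst.eventually (hfst.eventually (emb_near he hBc.continuousAt hU)),
    tendsto_fst.eventually (hfst.eventually (tendsto_snd.eventually hUev)),
    tendsto_fst.eventually (hfst.eventually (tendsto_fst.eventually hrev)),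
    tendsto_fst.eventually (dir_approx hq hV0 hδp),
    tendsto_fst.eventually (tV.norm.eventually (gt_mem_nhds (show ‖fderiv ℝ (fun z => e (B z)) ζ v‖ <
      ‖fderiv ℝ (fun z => e (B z)) ζ v‖ + 1 by linarith))), tendsto_snd.eventually hT]
    with q0 hnear htU hts hdir htV htW htS
  obtain ⟨t, htq⟩ : ∃ t, t = q0.1 := ⟨_, rfl⟩
  obtain ⟨F', hF'⟩ : ∃ F', F' = F q0.2 := ⟨_, rfl⟩
  have hrec' : ∀ y : X, ∀ s : ℝ, 0 < s → Pair1 e F' U C μ η y s := fun y s hs => by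
    rw [hF']; exact hrec _ htW y s hs
  rw [← hF']
  simp only [← htq] at hnear htU hts hdir htV htS ⊢
  obtain ⟨V, hV⟩ : ∃ V, V = fderiv ℝ (fun z => e (B z)) t.2.1 t.2.2 := ⟨_, rfl⟩
  rw [← hV] at hdir htV ⊢
  obtain ⟨hVne, hdir⟩ := hdir
  have hVn : 0 < ‖V‖ := norm_pos_iff.2 hVne
  obtain ⟨V', hV'⟩ : ∃ V', V' = ‖V‖⁻¹ • V := ⟨_, rfl⟩
  have hV'n : ‖V'‖ = 1 := by rw [hV', norm_smul, norm_inv, norm_norm, inv_mul_cancel₀ hVn.ne']
  obtain ⟨s, hs⟩ : ∃ s, s = t.1 := ⟨_, rfl⟩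
  rw [← hs] at hnear hts htS hdir ⊢
  have hs0 := hts.1
  obtain ⟨σ, hσ⟩ : ∃ σ, σ = (1 - δ) * s := ⟨_, rfl⟩
  have hσp : 0 < σ := by rw [hσ]; exact mul_pos (by linarith) hs0
  have hσs : σ + δ * s = s := by rw [hσ]; ring
  have hσle : σ ≤ s := by
    have : 0 ≤ δ * s := by positivity
    linarith
  obtain ⟨y, hy⟩ : ∃ y, y = B t.2.1 := ⟨_, rfl⟩
  obtain ⟨a, ha⟩ : ∃ a, a = B (t.2.1 + (σ / ‖V‖) • t.2.2) := ⟨_, rfl⟩
  obtain ⟨b, hb⟩ : ∃ b, b = B (t.2.1 + (-σ / ‖V‖) • t.2.2) := ⟨_, rfl⟩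
  have hda := hdir σ (by rw [abs_of_pos hσp]; exact hσle)
  have hdb := hdir (-σ) (by rw [abs_neg, abs_of_pos hσp]; exact hσle)
  rw [← hy] at hnear htU ⊢
  rw [← ha, ← hy] at hda
  rw [← hb, ← hy] at hdb
  have ha1 : ‖(e a - e y) - σ • V'‖ ≤ δ * s := by
    have : σ • V' = (σ / ‖V‖) • V := by rw [hV', smul_smul]; rfl
    rw [this]; exact hda
  have hb1 : ‖(e b - e y) + σ • V'‖ ≤ δ * s := by
    have : e b - e y + σ • V' = e b - e y - (-σ / ‖V‖) • V := by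
      rw [hV', smul_smul, neg_div, neg_smul, sub_neg_eq_add]; rfl
    rw [this]; exact hdb
  obtain ⟨hμC, hμ⟩ := hrec' y s hs0
  refine ⟨‖V‖ • ((μ / (2 * σ)) • innerSL ℝ (F' a - F' b)), ‖V‖ * ((μ * (‖F' b‖ ^ 2 - ‖F' a‖ ^ 2) + ‖e a - e y‖ ^ 2 -
    ‖e b - e y‖ ^ 2) / (4 * σ)), ?_, fun u hu => ?_⟩
  · have g1 := (hμC a (hnear a (pair_sum hV'n hσp.le hs0.le (w := e y - e y) (by rw [sub_self, norm_zero]; exact hs0.le) ha1 hb1 hσs).1) b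
      (hnear b (pair_sum hV'n hσp.le hs0.le (w := e y - e y) (by rw [sub_self, norm_zero]; exact hs0.le) ha1 hb1 hσs).2.1)
      (pair_sum hV'n hσp.le hs0.le (w := e y - e y) (by rw [sub_self, norm_zero]; exact hs0.le) ha1 hb1 hσs).1
      (pair_sum hV'n hσp.le hs0.le (w := e y - e y) (by rw [sub_self, norm_zero]; exact hs0.le) ha1 hb1 hσs).2.1).2
    have g7 : ‖‖V‖ • ((μ / (2 * σ)) • innerSL ℝ (F' a - F' b))‖ = ‖V‖ * (μ * ‖F' a - F' b‖) / (2 * σ) := by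
      rw [norm_smul, norm_smul, innerSL_apply_norm, norm_norm, Real.norm_eq_abs, abs_of_nonneg (by positivity)]
      ring
    rw [g7, hσ]
    have h1δ : 0 < 1 - δ := by linarith
    rw [div_le_div_iff₀ (by positivity) (by positivity)]
    have g8 : μ * ‖F' a - F' b‖ ≤ |C| * s := g1.trans (mul_le_mul_of_nonneg_right (le_abs_self C) hs0.le)
    have g9 : ‖V‖ * (μ * ‖F' a - F' b‖) ≤ (‖fderiv ℝ (fun z => e (B z)) ζ v‖ + 1) * (|C| * s) :=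
      mul_le_mul htV.le g8 (by positivity) (by positivity)
    have g10 := mul_le_mul_of_nonneg_right g9 (show (0 : ℝ) ≤ 2 * (1 - δ) by positivity)
    refine g10.trans (le_of_eq ?_)
    ring
  obtain ⟨p1, p2, p3⟩ := pair_sum hV'n hσp.le hs0.le hu ha1 hb1 hσs
  have e1 : e u - e y - (e a - e y) = e u - e a := by abel
  have e2 : e u - e y - (e b - e y) = e u - e b := by abel
  rw [e1, e2] at p3
  have h3 := hμ u (hnear u hu) a (hnear a p1) b (hnear b p2) hu p1 p2 δ hδp.le p3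
  rw [← e1, ← e2] at h3
  have h4 := polar_ineq (V := V') (δ := δ * s) hσp h3 ha1 hb1
  have hbound : ‖‖V‖ • ((μ / (2 * σ)) • innerSL ℝ (F' a - F' b))‖ * ‖F' u - F' y‖ ≤
      (‖fderiv ℝ (fun z => e (B z)) ζ v‖ + 1) * |C| / (2 * (1 - δ)) * s := by
    have g1 := (hμC a (hnear a p1) b (hnear b p2) p1 p2).1
    have g2 := (hμC u (hnear u hu) y htU hu (by rw [sub_self, norm_zero]; exact hs0.le)).1
    have g3 : μ * (‖F' a - F' b‖ * ‖F' u - F' y‖) ≤ |C| * s ^ 2 := by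
      have g4 : C * s ^ 2 ≤ |C| * s ^ 2 := mul_le_mul_of_nonneg_right (le_abs_self C) (sq_nonneg s)
      have g5 : ‖F' a - F' b‖ * ‖F' u - F' y‖ ≤ (‖F' a - F' b‖ ^ 2 + ‖F' u - F' y‖ ^ 2) / 2 := by
        nlinarith [sq_nonneg (‖F' a - F' b‖ - ‖F' u - F' y‖)]
      have g6 := mul_le_mul_of_nonneg_left g5 hμ0
      linarith
    have g7 : ‖‖V‖ • ((μ / (2 * σ)) • innerSL ℝ (F' a - F' b))‖ = ‖V‖ * (μ / (2 * σ) * ‖F' a - F' b‖) := by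
      rw [norm_smul, norm_smul, innerSL_apply_norm, norm_norm, Real.norm_eq_abs, abs_of_nonneg (by positivity)]
    rw [g7]
    have g8 : ‖V‖ * (μ / (2 * σ) * ‖F' a - F' b‖) * ‖F' u - F' y‖ = ‖V‖ / (2 * σ) * (μ * (‖F' a - F' b‖ * ‖F' u - F' y‖)) := by
      ring
    rw [g8]
    have g9 : ‖V‖ / (2 * σ) ≤ (‖fderiv ℝ (fun z => e (B z)) ζ v‖ + 1) / (2 * σ) :=
      div_le_div_of_nonneg_right htV.le (by positivity)
    refine (mul_le_mul g9 g3 (by positivity) (by positivity)).trans (le_of_eq ?_)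
    have g10 : (1 - δ) ≠ 0 := by linarith
    rw [hσ]
    field_simp
  refine ⟨?_, hbound⟩
  have e3 : (‖V‖ • ((μ / (2 * σ)) • innerSL ℝ (F' a - F' b))) (F' u) + ‖V‖ * ((μ * (‖F' b‖ ^ 2 - ‖F' a‖ ^ 2) +
      ‖e a - e y‖ ^ 2 - ‖e b - e y‖ ^ 2) / (4 * σ)) - inner ℝ V (e u - e y) =
      ‖V‖ * ((μ / (2 * σ)) * inner ℝ (F' a - F' b) (F' u) + (μ * (‖F' b‖ ^ 2 - ‖F' a‖ ^ 2) + ‖e a - e y‖ ^ 2 -
        ‖e b - e y‖ ^ 2) / (4 * σ) - inner ℝ V' (e u - e y)) := by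
    have e4 : inner ℝ V (e u - e y) = ‖V‖ * inner ℝ V' (e u - e y) := by
      rw [hV', inner_smul_left]
      simp only [map_inv₀, conj_trivial]
      field_simp
    rw [e4]
    have e5 : (‖V‖ • ((μ / (2 * σ)) • innerSL ℝ (F' a - F' b))) (F' u) = ‖V‖ * ((μ / (2 * σ)) * inner ℝ (F' a - F' b) (F' u)) :=
      rfl
    rw [e5]
    ring
  rw [e3, abs_mul, abs_of_pos hVn, mul_comm]
  refine mul_le_mul_of_nonneg_right (h4.trans ?_) hVn.le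
  have h5 : ‖e u - e y‖ * (δ * s) / σ ≤ s * (δ * s) / σ := by
    apply div_le_div_of_nonneg_right _ hσp.le
    exact mul_le_mul_of_nonneg_right hu (by positivity)
  have h6 : 4 * η * (1 + δ) * s ^ 2 / (4 * σ) + s * (δ * s) / σ ≤ η' * s := by
    have e6 : 4 * η * (1 + δ) * s ^ 2 / (4 * σ) + s * (δ * s) / σ = (η * (1 + δ) + δ) * s ^ 2 / σ := by
      field_simp
    rw [e6, div_le_iff₀ hσp, hσ]
    have h7 : η * (1 + δ) + δ = η' * (1 - δ) := by linarith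
    rw [h7]
    exact le_of_eq (by ring)
  linarith


end Pool.Agent.H865_iso
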