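import Pool.Agent.H865_iso.Conv

/-!
# Coarse coordinates of paths
-/

set_option autoImplicit false
set_option linter.unusedSectionVars false

open Set Filter Topology Metric Function MeasureTheory
open scoped Manifold ContDiff

noncomputable section

namespace Pool.Agent.H865_iso

open Pool.Agent.Y522 (LD)
open Pool.Agent.H865_small (E Imm imm_smooth emb_near)

/-- coarse coordinates of a path, with bounded functionals -/
def CCF {m k : ℕ} {X T : Type} [TopologicalSpace X] [TopologicalSpace T] (e : X → E m) (F : T → X → E k) (S : Set ℝ)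
    (η : ℝ) (t0 : T) (x : X) : Prop :=
  ∃ Wt ∈ 𝓝 t0, ∃ U ∈ 𝓝 x, ∃ r : ℝ, 0 < r ∧ ∃ C : ℝ, ∀ t ∈ Wt, ∀ y ∈ U, ∀ s ∈ S, 0 < s → s < r → ∀ v : E m, ‖v‖ = 1 →
    ∃ (ℓ : E k →L[ℝ] ℝ) (c : ℝ), ‖ℓ‖ ≤ C ∧ ∀ u ∈ U, ‖e u - e y‖ ≤ s →
      |ℓ (F t u) + c - inner ℝ v (e u - e y)| ≤ η * s ∧ ‖ℓ‖ * ‖F t u - F t y‖ ≤ C * s

variable {n m k : ℕ} {X T : Type} [TopologicalSpace X] [TopologicalSpace T] {e : X → E m} {F : T → X → E k}
  [ChartedSpace (E n) X]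

theorem TF_of_CCF (he : IsEmbedding e) (hI : ∀ x, Imm (n := n) e x) {S : Set ℝ} {η : ℝ} (hη : 0 ≤ η) {t0 : T} {x : X}
    (h : CCF e F S η t0 x) : TF (n := n) e F S η t0 x := by
  intro B ζ hx hBi hBl v hv
  subst hx
  obtain ⟨Wt, hWt, U, hU, r, hr, C, hrec⟩ := h
  have hBc : Continuous B := continuous_iff_continuousAt.2 fun z => (hBl z).continuousAt
  have hq : ContDiff ℝ ∞ (fun z => e (B z)) := contDiff_iff_contDiffAt.2 fun z => (imm_smooth (hI _) (hBl z)).1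
  have hUev : ∀ᶠ y in 𝓝 ζ, B y ∈ U := hBc.continuousAt.eventually hU
  have hrev : ∀ᶠ s in 𝓝[>] (0 : ℝ), 0 < s ∧ s < r := Ioo_mem_nhdsGT hr
  have hfst : Tendsto (fun t : ℝ × E n × E n => (t.1, t.2.1)) (𝓝[>] 0 ×ˢ 𝓝 ζ ×ˢ 𝓝 v) (𝓝[>] 0 ×ˢ 𝓝 ζ) :=
    tendsto_fst.prodMk (tendsto_fst.comp tendsto_snd)
  have tV : Tendsto (fun t : ℝ × E n × E n => fderiv ℝ (fun z => e (B z)) t.2.1 t.2.2)
      (𝓝[>] 0 ×ˢ 𝓝 ζ ×ˢ 𝓝 v) (𝓝 (fderiv ℝ (fun z => e (B z)) ζ v)) := by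
    have h1 : Continuous fun p : E n × E n => fderiv ℝ (fun z => e (B z)) p.1 p.2 :=
      ((hq.continuous_fderiv (by simp)).comp continuous_fst).clm_apply continuous_snd
    have h2 := h1.tendsto (ζ, v)
    rw [nhds_prod_eq] at h2
    exact h2.comp tendsto_snd
  refine ⟨(‖fderiv ℝ (fun z => e (B z)) ζ v‖ + 1) * |C|, by positivity, ?_⟩
  have hT : ∀ᶠ t' in 𝓝 t0, t' ∈ Wt := hWt
  filter_upwards [tendsto_fst.eventually (hfst.eventually (emb_near he hBc.continuousAt hU)),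
    tendsto_fst.eventually (hfst.eventually (tendsto_snd.eventually hUev)),
    tendsto_fst.eventually (hfst.eventually (tendsto_fst.eventually hrev)),
    tendsto_fst.eventually (tV.norm.eventually (gt_mem_nhds (show ‖fderiv ℝ (fun z => e (B z)) ζ v‖ <
      ‖fderiv ℝ (fun z => e (B z)) ζ v‖ + 1 by linarith))), tendsto_snd.eventually hT]
    with q0 hnear htU hts htV htW htS
  obtain ⟨t, htq⟩ : ∃ t, t = q0.1 := ⟨_, rfl⟩
  obtain ⟨F', hF'⟩ : ∃ F', F' = F q0.2 := ⟨_, rfl⟩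
  have hrec' := hrec _ htW
  rw [← hF'] at hrec' ⊢
  simp only [← htq] at hnear htU hts htV htS ⊢
  obtain ⟨V, hV⟩ : ∃ V, V = fderiv ℝ (fun z => e (B z)) t.2.1 t.2.2 := ⟨_, rfl⟩
  rw [← hV] at htV ⊢
  have hts1 := hts.1
  rcases eq_or_ne V 0 with hV0 | hV0
  · refine ⟨0, 0, by rw [norm_zero]; positivity, fun u _ => ?_⟩
    rw [hV0]
    constructor
    · simp
    · rw [norm_zero, zero_mul]
      positivity
  have hVn : 0 < ‖V‖ := norm_pos_iff.2 hV0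
  obtain ⟨ℓ, c, hℓC, hℓ⟩ := hrec' (B t.2.1) htU t.1 htS hts.1 hts.2 (‖V‖⁻¹ • V)
    (by rw [norm_smul, norm_inv, norm_norm, inv_mul_cancel₀ hVn.ne'])
  refine ⟨‖V‖ • ℓ, ‖V‖ * c, ?_, fun u hu => ?_⟩
  · rw [norm_smul, norm_norm]
    exact mul_le_mul htV.le (hℓC.trans (le_abs_self C)) (norm_nonneg _) (by positivity)
  obtain ⟨h4, h5⟩ := hℓ u (hnear _ hu) hu
  constructor
  · have e1 : (‖V‖ • ℓ) (F' u) + ‖V‖ * c - inner ℝ V (e u - e (B t.2.1)) =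
        ‖V‖ * (ℓ (F' u) + c - inner ℝ (‖V‖⁻¹ • V) (e u - e (B t.2.1))) := by
      rw [inner_smul_left]
      simp only [map_inv₀, conj_trivial]
      rw [show (‖V‖ • ℓ) (F' u) = ‖V‖ * ℓ (F' u) from rfl]
      field_simp
    rw [e1, abs_mul, abs_of_pos hVn]
    calc ‖V‖ * |ℓ (F' u) + c - inner ℝ (‖V‖⁻¹ • V) (e u - e (B t.2.1))| ≤ ‖V‖ * (η * t.1) :=
          mul_le_mul_of_nonneg_left h4 hVn.le
      _ = η * t.1 * ‖V‖ := by ring
  · rw [norm_smul, norm_norm, mul_assoc, mul_assoc]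
    refine mul_le_mul htV.le (h5.trans ?_) (by positivity) (by positivity)
    exact mul_le_mul_of_nonneg_right (le_abs_self C) hts1.le


end Pool.Agent.H865_iso
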