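import Pool.Agent.H865_iso.Asm
import Pool.Agent.H865_iso.Conv2

/-!
# From paths of local diffeomorphisms to smooth isotopies
-/

set_option autoImplicit false

open Set Filter Topology Metric Function MeasureTheory
open scoped Manifold ContDiff

noncomputable section

namespace Pool.Agent.H865_iso

open Pool.Agent.Y522 (LD)
open Pool.Agent.H865_small (E Imm vol exists_diffeo)
open Pool.Agent.H865_cl (bij_of_homotopy)

/-- a smooth path of local diffeomorphisms which starts with a bijection consists of diffeomorphisms -/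
theorem bij_of_LDIso {n : ℕ} {M N : Type} [TopologicalSpace M] [TopologicalSpace N]
    [CompactSpace M] [T2Space M] [ConnectedSpace M] [T2Space N]
    [ChartedSpace (E n) M] [ChartedSpace (E n) N] {K : ℝ × M → N} (hKc : Continuous K)
    (hK : ∀ t x, LD n (fun x => K (t, x)) x) (h0 : Bijective fun x => K (0, x)) (t : ℝ) :
    ∃ Φ : Diffeomorph (𝓡 n) (𝓡 n) M N ∞, ∀ x, Φ x = K (t, x) := by
  have hloc : ∀ t, IsLocalDiffeomorph (𝓡 n) (𝓡 n) ∞ (fun x => K (t, x)) := fun t x => hK t x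
  obtain ⟨Φ, hΦ⟩ := exists_diffeo _ _ (hloc 0) h0
  have hlh : IsLocalHomeomorph (fun x => K (t, x)) := IsLocalDiffeomorph.isLocalHomeomorph (hloc t)
  have hbij : Bijective (fun x => K (t, x)) := by
    refine bij_of_homotopy hlh ⟨Φ.symm, Φ.symm.continuous⟩ ?_
    refine ⟨{ toFun := fun p => K ((1 - (p.1 : ℝ)) * t, Φ.symm p.2), continuous_toFun := ?_, map_zero_left := ?_,
              map_one_left := ?_ }⟩
    · have h1 : Continuous fun p : unitInterval × N => (p.1 : ℝ) := continuous_subtype_val.comp continuous_fst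
      have h2 : Continuous fun p : unitInterval × N => Φ.symm p.2 := Φ.symm.continuous.comp continuous_snd
      exact hKc.comp (((continuous_const.sub h1).mul continuous_const).prodMk h2)
    · intro y
      simp
    · intro y
      have h3 : K (0, Φ.symm y) = y := by
        rw [← hΦ]
        exact Φ.apply_symm_apply y
      simpa using h3
  exact exists_diffeo _ _ (hloc t) hbij

theorem iso_final (d m k : ℕ) (M N T : Type) [TopologicalSpace M] [TopologicalSpace N] [TopologicalSpace T]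
    [CompactSpace M] [T2Space M] [ConnectedSpace M] [CompactSpace N] [T2Space N] [CompactSpace T]
    [PreconnectedSpace T]
    [ChartedSpace (E (d + 1)) M] [ChartedSpace (E (d + 1)) N]
    [IsManifold (𝓡 (d + 1)) ∞ M] [IsManifold (𝓡 (d + 1)) ∞ N]
    (e : M → E m) (he : Continuous e) (hei : Injective e) (heI : ∀ x, Imm (n := d + 1) e x)
    (j : N → E k) (hj : Continuous j) (hji : Injective j) (hjI : ∀ y, Imm (n := d + 1) j y)
    (f : T → M → N) (hf : Continuous fun p : T × M => f p.1 p.2)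
    (S : Set ℝ) (hS : ∀ δ : ℝ, 0 < δ → ∃ s ∈ S, 0 < s ∧ s < δ) {η : ℝ} (hη : η < vol (d + 1) / (2 * vol d))
    (hκ : 0 < vol (d + 1) / (2 * vol d))
    (hrec : ∀ t x, CCF e (fun t x => j (f t x)) S η t x ∨
      ∃ K : ℝ, (K ^ 2 - 1) / (K ^ 2 + 1) ≤ η ∧ BLF e (fun t x => j (f t x)) K t x)
    (t0 t1 : T) (h0 : ∃ Φ : Diffeomorph (𝓡 (d + 1)) (𝓡 (d + 1)) M N ∞, ∀ x, Φ x = f t0 x)
    (h1 : ∃ Φ : Diffeomorph (𝓡 (d + 1)) (𝓡 (d + 1)) M N ∞, ∀ x, Φ x = f t1 x) :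
    ∃ K : ℝ × M → N, ContMDiff ((𝓘(ℝ, ℝ)).prod (𝓡 (d + 1))) (𝓡 (d + 1)) ∞ K ∧
      (∀ t, ∃ Φ : Diffeomorph (𝓡 (d + 1)) (𝓡 (d + 1)) M N ∞, ∀ x, Φ x = K (t, x)) ∧
      (∀ x, K (0, x) = f t0 x) ∧ ∀ x, K (1, x) = f t1 x := by
  obtain ⟨m0⟩ : Nonempty M := inferInstance
  have : Nonempty N := ⟨f t0 m0⟩
  obtain ⟨η1, hη1, hη1'⟩ := exists_between (max_lt hη hκ)
  obtain ⟨η2, hη2, hη2'⟩ := exists_between hη1'
  obtain ⟨η3, hη3, hη3'⟩ := exists_between hη2'
  have hη1p : 0 < η1 := (le_max_right _ _).trans_lt hη1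
  have hηη1 : η < η1 := (le_max_left _ _).trans_lt hη1
  have hee : IsEmbedding e := (he.isClosedEmbedding hei).isEmbedding
  have hS' : ∃ᶠ s in 𝓝[>] (0 : ℝ), s ∈ S := by
    rw [Filter.frequently_iff]
    intro U hU
    obtain ⟨δ, hδ, hδU⟩ := mem_nhdsGT_iff_exists_Ioo_subset.1 hU
    obtain ⟨s, hs, hs0, hsδ⟩ := hS δ hδ
    exact ⟨s, hδU ⟨hs0, hsδ⟩, hs⟩
  have hLD : ∀ t', (∃ Φ : Diffeomorph (𝓡 (d + 1)) (𝓡 (d + 1)) M N ∞, ∀ x, Φ x = f t' x) → ∀ x, LD (d + 1) (f t') x := by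
    rintro t' ⟨Φ, hΦ⟩ x
    have e1 : f t' = Φ := funext fun x => (hΦ x).symm
    rw [e1]
    exact Φ.isLocalDiffeomorph x
  obtain ⟨K, k1, k2, k3, k4⟩ := iso_main d m k M N T e he hei heI j hj hji hjI f hf S hS' (hη1p.trans hη2) hη3 hη3'
    (fun t x => by
      rcases hrec t x with ⟨Wt, hWt, U, hU, r, hr, C, h⟩ | ⟨K, hK, h⟩
      · refine TF_of_CCF hee heI (hη1p.trans hη2).le ⟨Wt, hWt, U, hU, r, hr, C, fun t' ht' y hy s hs hs0 hsr v hv => ?_⟩
        obtain ⟨ℓ, c, h2, h3⟩ := h t' ht' y hy s hs hs0 hsr v hv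
        exact ⟨ℓ, c, h2, fun u hu hue => ⟨(h3 u hu hue).1.trans
          (mul_le_mul_of_nonneg_right (hηη1.trans hη2).le hs0.le), (h3 u hu hue).2⟩⟩
      · exact TF_of_BLF hee heI hη1p hη2 (hK.trans hηη1.le) h) t0 t1 (hLD t0 h0) (hLD t1 h1)
  refine ⟨K, k1, fun t => bij_of_LDIso k1.continuous k2 ?_ t, k3, k4⟩
  obtain ⟨Φ, hΦ⟩ := h0
  have e1 : (fun x => K (0, x)) = Φ := funext fun x => by rw [k3, hΦ]
  rw [e1]
  exact Φ.bijective

end Pool.Agent.H865_iso
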