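import Pool.Agent.H865_cl.Closed

/-!
# Smooth paths of local diffeomorphisms
-/

set_option autoImplicit false

open Set Filter Topology Metric Function MeasureTheory
open scoped Manifold ContDiff

noncomputable section

namespace Pool.Agent.H865_iso

open Pool.Agent.Y522 (LD)
open Pool.Agent.H865_small (E Imm imm_smooth exists_chartB LD_of_inj)
open Pool.Agent.H865_cl (LD_of_imm)

variable {n k : ℕ} {X N : Type} [TopologicalSpace X] [ChartedSpace (E n) X] [TopologicalSpace N]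
  [ChartedSpace (E n) N] {j : N → E k}

/-- a smooth path of local diffeomorphisms -/
def LDIso (n : ℕ) {X N : Type} [TopologicalSpace X] [ChartedSpace (E n) X] [TopologicalSpace N]
    [ChartedSpace (E n) N] (φ0 φ1 : X → N) : Prop :=
  ∃ K : ℝ × X → N, ContMDiff ((𝓘(ℝ, ℝ)).prod (𝓡 n)) (𝓡 n) ∞ K ∧ (∀ t x, LD n (fun x => K (t, x)) x) ∧
    (∀ x, K (0, x) = φ0 x) ∧ ∀ x, K (1, x) = φ1 x

theorem reparam {K : ℝ × X → N} (hK : ContMDiff ((𝓘(ℝ, ℝ)).prod (𝓡 n)) (𝓡 n) ∞ K) {l : ℝ → ℝ}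
    (hl : ContDiff ℝ ∞ l) : ContMDiff ((𝓘(ℝ, ℝ)).prod (𝓡 n)) (𝓡 n) ∞ (fun p : ℝ × X => K (l p.1, p.2)) := by
  refine hK.comp ?_
  exact (hl.contMDiff.comp contMDiff_fst).prodMk contMDiff_snd

theorem LDIso.symm {φ0 φ1 : X → N} (h : LDIso n φ0 φ1) : LDIso n φ1 φ0 := by
  obtain ⟨K, h1, h2, h3, h4⟩ := h
  refine ⟨fun p => K (1 - p.1, p.2), reparam h1 (l := fun t => 1 - t) (by fun_prop), fun t x => h2 (1 - t) x,
    fun x => ?_, fun x => ?_⟩
  · show K (1 - 0, x) = _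
    rw [sub_zero, h4]
  · show K (1 - 1, x) = _
    rw [sub_self, h3]

theorem LDIso.trans {φ0 φ1 φ2 : X → N} (h : LDIso n φ0 φ1) (h' : LDIso n φ1 φ2) : LDIso n φ0 φ2 := by
  obtain ⟨K, h1, h2, h3, h4⟩ := h
  obtain ⟨L, k1, k2, k3, k4⟩ := h'
  have hl : ContDiff ℝ ∞ Real.smoothTransition := Real.smoothTransition.contDiff
  obtain ⟨a, ha⟩ : ∃ a : ℝ → ℝ, a = fun t => Real.smoothTransition (3 * t) := ⟨_, rfl⟩
  obtain ⟨b, hb⟩ : ∃ b : ℝ → ℝ, b = fun t => Real.smoothTransition (3 * t - 2) := ⟨_, rfl⟩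
  have has : ContDiff ℝ ∞ a := by rw [ha]; exact hl.comp (by fun_prop)
  have hbs : ContDiff ℝ ∞ b := by rw [hb]; exact hl.comp (by fun_prop)
  have ha1 : ∀ t, 1 / 3 ≤ t → a t = 1 := fun t ht => by
    rw [ha]; exact Real.smoothTransition.one_of_one_le (by linarith)
  have hb0 : ∀ t, t ≤ 2 / 3 → b t = 0 := fun t ht => by
    rw [hb]; exact Real.smoothTransition.zero_of_nonpos (by linarith)
  obtain ⟨M, hM⟩ : ∃ M : ℝ × X → N, M = fun p => if p.1 < 1 / 2 then K (a p.1, p.2) else L (b p.1, p.2) := ⟨_, rfl⟩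
  have e1 : ∀ p : ℝ × X, p.1 < 2 / 3 → M p = K (a p.1, p.2) := by
    intro p hp
    rw [hM]
    simp only
    split_ifs with h
    · rfl
    · rw [ha1 p.1 (by linarith), hb0 p.1 hp.le, h4, k3]
  have e2 : ∀ p : ℝ × X, 1 / 3 < p.1 → M p = L (b p.1, p.2) := by
    intro p hp
    rw [hM]
    simp only
    split_ifs with h
    · rw [ha1 p.1 hp.le, hb0 p.1 (by linarith), h4, k3]
    · rfl
  refine ⟨M, fun p => ?_, fun t x => ?_, fun x => ?_, fun x => ?_⟩
  · rcases lt_or_ge p.1 (1 / 2) with h | h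
    · refine ((reparam h1 has) p).congr_of_eventuallyEq ?_
      have : ∀ᶠ q : ℝ × X in 𝓝 p, q.1 < 2 / 3 := continuous_fst.continuousAt.eventually (gt_mem_nhds (by linarith))
      filter_upwards [this] with q hq
      exact e1 q hq
    · refine ((reparam k1 hbs) p).congr_of_eventuallyEq ?_
      have : ∀ᶠ q : ℝ × X in 𝓝 p, 1 / 3 < q.1 := continuous_fst.continuousAt.eventually (lt_mem_nhds (by linarith))
      filter_upwards [this] with q hq
      exact e2 q hq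
  · rcases lt_or_ge t (1 / 2) with h | h
    · have : (fun x => M (t, x)) = fun x => K (a t, x) := funext fun y => e1 (t, y) (by simp only; linarith)
      rw [this]; exact h2 _ _
    · have : (fun x => M (t, x)) = fun x => L (b t, x) := funext fun y => e2 (t, y) (by simp only; linarith)
      rw [this]; exact k2 _ _
  · rw [e1 (0, x) (by norm_num)]
    have : a 0 = 0 := by rw [ha]; exact Real.smoothTransition.zero_of_nonpos (by norm_num)
    show K (a 0, x) = _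
    rw [this, h3]
  · rw [e2 (1, x) (by norm_num)]
    have : b 1 = 1 := by rw [hb]; exact Real.smoothTransition.one_of_one_le (by norm_num)
    show L (b 1, x) = _
    rw [this, k4]

variable [IsManifold (𝓡 n) ∞ N]

/-- smoothness of a map with parameters to an immersed manifold -/
theorem smooth_of_imm {H : ℝ × X → N} (hI : ∀ y, Imm (n := n) j y) {B0 : E n → X} {ζ : E n} {τ : ℝ}
    (hB : LD n B0 ζ) (hH : ContinuousAt H (τ, B0 ζ))
    (hs : ContDiffAt ℝ ∞ (fun p : ℝ × E n => j (H (p.1, B0 p.2))) (τ, ζ)) :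
    ContMDiffAt ((𝓘(ℝ, ℝ)).prod (𝓡 n)) (𝓡 n) ∞ H (τ, B0 ζ) := by
  obtain ⟨A, hA0, hAi, hAl⟩ := exists_chartB (n := n) (H (τ, B0 ζ))
  have hq : ContDiff ℝ ∞ (fun z => j (A z)) := contDiff_iff_contDiffAt.2 fun z => (imm_smooth (hI _) (hAl z)).1
  obtain ⟨D, hD⟩ : ∃ D, D = fderiv ℝ (fun z => j (A z)) 0 := ⟨_, rfl⟩
  have hDi : Injective D := by rw [hD]; exact (imm_smooth (hI _) (hAl 0)).2
  obtain ⟨T0, hT0⟩ := LinearMap.exists_leftInverse_of_injective D.toLinearMap (LinearMap.ker_eq_bot.2 hDi)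
  obtain ⟨T, hT⟩ : ∃ T : E k →L[ℝ] E n, ∀ w, T (D w) = w :=
    ⟨LinearMap.toContinuousLinearMap T0, fun w => congrArg (fun f : E n →ₗ[ℝ] E n => f w) hT0⟩
  have hTq : LD n (fun z => T (j (A z))) 0 := by
    refine LD_of_inj (Filter.Eventually.of_forall fun z => ?_) fun v hv => ?_
    · exact (T.contDiff.comp hq).contDiffAt
    · have h1 : HasFDerivAt (fun z => T (j (A z))) (T.comp D) 0 := by
        rw [hD]
        exact T.hasFDerivAt.comp (0 : E n) (hq.differentiable (by simp) 0).hasFDerivAt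
      rw [h1.fderiv, ContinuousLinearMap.comp_apply, hT]
      intro h0
      rw [h0, norm_zero] at hv
      exact zero_ne_one hv
  obtain ⟨r, hr, hr0, hr1, -⟩ := hTq.exists_inverse
  obtain ⟨a, ha, ha0, -, ha2⟩ := (hAl 0).exists_inverse
  rw [hA0] at ha ha0 ha2
  obtain ⟨b, hb, hb0, -, hb2⟩ := hB.exists_inverse
  have hwt : Tendsto (fun p => a (H p)) (𝓝 (τ, B0 ζ)) (𝓝 0) := by
    have h1 := ha.continuousAt.tendsto
    rw [ha0] at h1
    exact h1.comp hH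
  have h1 : ∀ᶠ p in 𝓝 (τ, B0 ζ), A (a (H p)) = H p := hH.eventually ha2
  have h2 : ∀ᶠ p in 𝓝 (τ, B0 ζ), H p = A (r (T (j (H p)))) := by
    filter_upwards [hwt.eventually hr1, h1] with p hp1 hp2
    rw [hp2] at hp1
    rw [hp1, hp2]
  have hjH : ContMDiffAt ((𝓘(ℝ, ℝ)).prod (𝓡 n)) 𝓘(ℝ, E k) ∞ (fun p => j (H p)) (τ, B0 ζ) := by
    have h3 : ContMDiffAt ((𝓘(ℝ, ℝ)).prod (𝓡 n)) 𝓘(ℝ, ℝ × E n) ∞ (fun p : ℝ × X => (p.1, b p.2)) (τ, B0 ζ) :=
      contMDiffAt_fst.prodMk_space (hb.contMDiffAt.comp (τ, B0 ζ) contMDiffAt_snd)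
    have h4 : ContMDiffAt 𝓘(ℝ, ℝ × E n) 𝓘(ℝ, E k) ∞ (fun p : ℝ × E n => j (H (p.1, B0 p.2))) (τ, b (B0 ζ)) := by
      rw [hb0]; exact hs.contMDiffAt
    have h5 := h4.comp (τ, B0 ζ) h3
    refine h5.congr_of_eventuallyEq ?_
    have h6 : ∀ᶠ p : ℝ × X in 𝓝 (τ, B0 ζ), B0 (b p.2) = p.2 :=
      (continuous_snd.tendsto (τ, B0 ζ)).eventually hb2
    filter_upwards [h6] with p hp
    simp only [Function.comp]
    rw [hp]
  have hfin : ContMDiffAt ((𝓘(ℝ, ℝ)).prod (𝓡 n)) (𝓡 n) ∞ (fun p => A (r (T (j (H p))))) (τ, B0 ζ) := by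
    have h7 : ContMDiffAt ((𝓘(ℝ, ℝ)).prod (𝓡 n)) 𝓘(ℝ, E n) ∞ (fun p => T (j (H p))) (τ, B0 ζ) :=
      T.contDiff.contMDiff.contMDiffAt.comp (τ, B0 ζ) hjH
    have hr' : ContMDiffAt (𝓡 n) (𝓡 n) ∞ r (T (j (H (τ, B0 ζ)))) := by
      have := hr.contMDiffAt
      rw [hA0] at this
      exact this
    have h8 : ContMDiffAt ((𝓘(ℝ, ℝ)).prod (𝓡 n)) (𝓡 n) ∞ (fun p => r (T (j (H p)))) (τ, B0 ζ) :=
      hr'.comp (τ, B0 ζ) h7
    exact (hAl _).contMDiffAt.comp (τ, B0 ζ) h8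
  exact hfin.congr_of_eventuallyEq h2

/-- **Linear interpolation.** -/
theorem lin_iso {ι : Type} {B : ι → E n → X} (hBl : ∀ i z, LD n (B i) z)
    (hI : ∀ y, Imm (n := n) j y) {π : E k → N} {Ω : Set (E k)} (hΩ : IsOpen Ω)
    (hπc : ∀ z ∈ Ω, ContinuousAt π z) (hπs : ∀ z ∈ Ω, ContDiffAt ℝ ∞ (fun z => j (π z)) z)
    {G0 G1 : X → E k} (hG0 : Continuous G0) (hG1 : Continuous G1)
    (hs0 : ∀ i y, ‖y‖ < 1 → ContDiffAt ℝ ∞ (fun z => G0 (B i z)) y)
    (hs1 : ∀ i y, ‖y‖ < 1 → ContDiffAt ℝ ∞ (fun z => G1 (B i z)) y)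
    (h : ∀ x, ∃ i y, ‖y‖ < 1 ∧ B i y = x ∧ ∀ a : ℝ, 0 ≤ a → a ≤ 1 → G0 (B i y) + a • (G1 (B i y) - G0 (B i y)) ∈ Ω ∧
      ∀ v : E n, ‖v‖ = 1 → fderiv ℝ (fun z => j (π z)) (G0 (B i y) + a • (G1 (B i y) - G0 (B i y)))
        (fderiv ℝ (fun z => G0 (B i z)) y v + a • (fderiv ℝ (fun z => G1 (B i z)) y v -
          fderiv ℝ (fun z => G0 (B i z)) y v)) ≠ 0) :
    LDIso n (fun x => π (G0 x)) (fun x => π (G1 x)) := by
  obtain ⟨l, hl⟩ : ∃ l : ℝ → ℝ, l = Real.smoothTransition := ⟨_, rfl⟩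
  have hls : ContDiff ℝ ∞ l := by rw [hl]; exact Real.smoothTransition.contDiff
  have hl0 : ∀ t, 0 ≤ l t := fun t => by rw [hl]; exact Real.smoothTransition.nonneg t
  have hl1 : ∀ t, l t ≤ 1 := fun t => by rw [hl]; exact Real.smoothTransition.le_one t
  obtain ⟨Q, hQ⟩ : ∃ Q : ℝ × X → E k, Q = fun p => G0 p.2 + l p.1 • (G1 p.2 - G0 p.2) := ⟨_, rfl⟩
  have hQc : Continuous Q := by
    rw [hQ]
    have h1 := hG0.comp (continuous_snd (X := ℝ) (Y := X))
    have h2 := hG1.comp (continuous_snd (X := ℝ) (Y := X))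
    exact h1.add ((hls.continuous.comp continuous_fst).smul (h2.sub h1))
  have hQΩ : ∀ p, Q p ∈ Ω := by
    intro p
    obtain ⟨i, y, hy, hyx, h1⟩ := h p.2
    have h2 := (h1 (l p.1) (hl0 _) (hl1 _)).1
    rw [hyx] at h2
    rw [hQ]
    exact h2
  have hHc : ∀ p, ContinuousAt (fun p => π (Q p)) p := fun p =>
    ContinuousAt.comp (g := π) (hπc _ (hQΩ p)) hQc.continuousAt
  refine ⟨fun p => π (Q p), ?_, fun t x => ?_, fun x => ?_, fun x => ?_⟩
  · rintro ⟨τ, x⟩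
    obtain ⟨i, y, hy, hyx, h1⟩ := h x
    subst hyx
    refine smooth_of_imm hI (hBl i y) (hHc _) ?_
    have h2 : ContDiffAt ℝ ∞ (fun p : ℝ × E n => Q (p.1, B i p.2)) (τ, y) := by
      rw [hQ]
      have h3 : ContDiffAt ℝ ∞ (fun p : ℝ × E n => G0 (B i p.2)) (τ, y) :=
        ContDiffAt.comp (g := fun z => G0 (B i z)) (f := fun p : ℝ × E n => p.2) (τ, y) (hs0 i y hy) contDiffAt_snd
      have h4 : ContDiffAt ℝ ∞ (fun p : ℝ × E n => G1 (B i p.2)) (τ, y) :=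
        ContDiffAt.comp (g := fun z => G1 (B i z)) (f := fun p : ℝ × E n => p.2) (τ, y) (hs1 i y hy) contDiffAt_snd
      have h5 : ContDiffAt ℝ ∞ (fun p : ℝ × E n => l p.1) (τ, y) := (hls.comp contDiff_fst).contDiffAt
      exact h3.add (h5.smul (h4.sub h3))
    exact ContDiffAt.comp (g := fun z => j (π z)) (τ, y) (hπs _ (hQΩ _)) h2
  · obtain ⟨i, y, hy, hyx, h1⟩ := h x
    subst hyx
    have hd0 := ((hs0 i y hy).differentiableAt (by simp)).hasFDerivAt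
    have hd1 := ((hs1 i y hy).differentiableAt (by simp)).hasFDerivAt
    have hball : ∀ᶠ z in 𝓝 y, ‖z‖ < 1 := by
      have := isOpen_ball.mem_nhds (show y ∈ ball (0 : E n) 1 by rw [mem_ball_zero_iff]; exact hy)
      filter_upwards [this] with z hz
      rwa [mem_ball_zero_iff] at hz
    have hsm : ∀ z, ‖z‖ < 1 → ContDiffAt ℝ ∞ (fun z => Q (t, B i z)) z := by
      intro z hz
      rw [hQ]
      exact (hs0 i z hz).add (((hs1 i z hz).sub (hs0 i z hz)).const_smul (l t))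
    refine LD_of_imm (j := j) hI (hBl i y) ?_ ?_ ?_
    · exact ContinuousAt.comp (g := fun p => π (Q p)) (f := fun x => (t, x)) (hHc _) (by fun_prop)
    · filter_upwards [hball] with z hz
      exact ContDiffAt.comp (g := fun z => j (π z)) z (hπs _ (hQΩ _)) (hsm z hz)
    · intro v hv
      have hdQ : HasFDerivAt (fun z => Q (t, B i z)) (fderiv ℝ (fun z => G0 (B i z)) y +
          l t • (fderiv ℝ (fun z => G1 (B i z)) y - fderiv ℝ (fun z => G0 (B i z)) y)) y := by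
        rw [hQ]
        exact hd0.add ((hd1.sub hd0).const_smul (l t))
      have h3 := HasFDerivAt.comp (g := fun z => j (π z)) (f := fun z => Q (t, B i z)) y
        ((hπs _ (hQΩ _)).differentiableAt (by simp)).hasFDerivAt hdQ
      have h4 : (fun z => j (π (Q (t, B i z)))) = (fun z => j (π z)) ∘ (fun z => Q (t, B i z)) := rfl
      show fderiv ℝ (fun z => j (π (Q (t, B i z)))) y v ≠ 0
      rw [h4, h3.fderiv]
      have h5 := (h1 (l t) (hl0 _) (hl1 _)).2 v hv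
      have h6 : Q (t, B i y) = G0 (B i y) + l t • (G1 (B i y) - G0 (B i y)) := by rw [hQ]
      rw [h6]
      exact h5
  · have : Q (0, x) = G0 x := by
      rw [hQ]
      have : l 0 = 0 := by rw [hl]; exact Real.smoothTransition.zero
      simp only [this, zero_smul, add_zero]
    simp only [this]
  · have : Q (1, x) = G1 x := by
      rw [hQ]
      have : l 1 = 1 := by rw [hl]; exact Real.smoothTransition.one
      simp only [this, one_smul]
      abel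
    simp only [this]

end Pool.Agent.H865_iso
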