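import Pool.Agent.H865_cl.Good2

/-!
# The uniform lower bound, for all maps at once
-/

set_option autoImplicit false

open Set Filter Topology Metric Function MeasureTheory
open scoped Manifold ContDiff

noncomputable section

namespace Pool.Agent.H865_iso

open Pool.Agent.Y522 (LD)
open Pool.Agent.H865_small
open Pool.Agent.H865_cl (Ns Gs Ns_smooth Gs_smooth ell_Ns val_bound deriv_low)

variable {n m k : ℕ} {ρ : ℝ} {ι : Type} [Fintype ι]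

/-- the uniform lower bound -/
theorem main_low2 (h1 : ρ ^ 2 < 1) {η : ℝ} (hA : Adm n ρ η)
    {β : E n → ℝ} (hβ : Continuous β) (hβ0 : ∀ z, 0 ≤ β z) (hβs : ∀ z, 1 < ‖z‖ → β z = 0)
    {q : ι → E n → E m} (hq : ∀ i, ContDiff ℝ ∞ (q i))
    (hqi : ∀ i, Injective (q i)) (hqd : ∀ i z, Injective (fderiv ℝ (q i) z)) (i0 : ι) {ζ v : E n} (hζ : ‖ζ‖ < 1)
    (hβζ : 0 < β ζ) (hv : v ≠ 0)
    (hd : ∀ i, (∃ θ : E n → E n, ContinuousAt θ ζ ∧ (∀ᶠ y in 𝓝 ζ, q i (θ y) = q i0 y) ∧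
      ∃ w, fderiv ℝ (q i) (θ ζ) w = fderiv ℝ (q i0) ζ v) ∨ q i0 ζ ∉ q i '' closedBall 0 1) :
    ∃ c0 : ℝ, 0 < c0 ∧ ∀ᶠ t : ℝ × E n × E n in 𝓝[>] 0 ×ˢ 𝓝 ζ ×ˢ 𝓝 v, 0 < Zs ρ β q t.1 (q i0 t.2.1) →
      ∀ g : ι → E n → E k, (∀ i, Continuous (g i)) → ∀ (ℓ : E k →L[ℝ] ℝ) (c : ℝ), (∀ i z, ‖z‖ ≤ 1 → ‖q i z - q i0 t.2.1‖ ≤ t.1 →
        |ℓ (g i z) + c - inner ℝ (fderiv ℝ (q i0) t.2.1 t.2.2) (q i z - q i0 t.2.1)| ≤
          η * t.1 * ‖fderiv ℝ (q i0) t.2.1 t.2.2‖) →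
        c0 ≤ ℓ (fderiv ℝ (Gs ρ β q g t.1) (q i0 t.2.1) (fderiv ℝ (q i0) t.2.1 t.2.2)) := by
  have hex := fun i => lim_i hβ hβ0 hβs (hq i) (hqi i) (hqd i) (hq i0) (hqd i0) (hd i)
  choose b J w hb hJ hJw hbpos hlim using hex
  obtain ⟨V, hV⟩ : ∃ V, V = fderiv ℝ (q i0) ζ v := ⟨_, rfl⟩
  have hV0 : V ≠ 0 := by
    intro h
    apply hv
    apply hqd i0 ζ
    rw [map_zero, ← hV, h]
  have hw0 : ∀ i, w i ≠ 0 := by
    intro i h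
    apply hV0
    rw [hV, ← hJw i, h, map_zero]
  rw [← hV] at hJw hlim
  have hb0 : 0 < b i0 := hbpos i0 ⟨ζ, hζ, rfl, hβζ⟩
  have hL2 : 0 < ∑ i, b i * ∫ ξ, φ2 ρ η (J i ξ) V := by
    refine Finset.sum_pos' (fun i _ => ?_) ⟨i0, Finset.mem_univ _, ?_⟩
    · have := int_φ2_pos hA (hJ i) (hw0 i)
      rw [hJw] at this
      exact mul_nonneg (hb i) this.le
    · have := int_φ2_pos hA (hJ i0) (hw0 i0)
      rw [hJw] at this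
      exact mul_pos hb0 this
  have hL0 : 0 < ∑ i, b i * ∫ ξ, φ0 ρ (J i ξ) V := by
    refine Finset.sum_pos' (fun i _ => ?_) ⟨i0, Finset.mem_univ _, ?_⟩
    · exact mul_nonneg (hb i) (int_φ0_pos h1 (hJ i) V).le
    · exact mul_pos hb0 (int_φ0_pos h1 (hJ i0) V)
  have hL1 : ∑ i, b i * ∫ ξ, φ1 ρ (J i ξ) V = 0 :=
    Finset.sum_eq_zero fun i _ => by rw [int_φ1_zero, mul_zero]
  have t0 := tendsto_finsetSum Finset.univ fun i _ => hlim i (φ0 ρ) φ0_cont (φ0_zero h1)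
  have t1 := tendsto_finsetSum Finset.univ fun i _ => hlim i (φ1 ρ) φ1_cont (φ1_zero h1)
  have t2 := tendsto_finsetSum Finset.univ fun i _ => hlim i (φ2 ρ η) (φ2_cont η) (φ2_zero h1 η)
  rw [hL1] at t1
  have tV : Tendsto (fun t : ℝ × E n × E n => fderiv ℝ (q i0) t.2.1 t.2.2) (𝓝[>] 0 ×ˢ 𝓝 ζ ×ˢ 𝓝 v)
      (𝓝 V) := by
    have h1 : Continuous fun p : E n × E n => fderiv ℝ (q i0) p.1 p.2 :=
      (((hq i0).continuous_fderiv (by simp)).comp continuous_fst).clm_apply continuous_snd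
    have h2 := h1.tendsto (ζ, v)
    rw [nhds_prod_eq] at h2
    rw [hV]
    exact h2.comp tendsto_snd
  obtain ⟨L2, hL2e⟩ : ∃ L2, L2 = ∑ i, b i * ∫ ξ, φ2 ρ η (J i ξ) V := ⟨_, rfl⟩
  obtain ⟨L0, hL0e⟩ : ∃ L0, L0 = ∑ i, b i * ∫ ξ, φ0 ρ (J i ξ) V := ⟨_, rfl⟩
  rw [← hL2e] at t2 hL2
  rw [← hL0e] at t0 hL0
  have tR := (((tendsto_const_nhds (x := (2 : ℝ))).div t0 hL0.ne')).mul (t2.sub (((tendsto_const_nhds (x := 1 + η)).mul tV.norm).mul t1.abs))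
  have hlimval : 2 / L0 * (L2 - (1 + η) * ‖V‖ * |0|) = 2 * L2 / L0 := by
    rw [abs_zero, mul_zero, sub_zero]; ring
  rw [hlimval] at tR
  refine ⟨L2 / L0, by positivity, ?_⟩
  have hlt : L2 / L0 < 2 * L2 / L0 := by
    have : 0 < L2 / L0 := by positivity
    have e : 2 * L2 / L0 = L2 / L0 + L2 / L0 := by ring
    linarith
  have hpos : ∀ᶠ t : ℝ × E n × E n in 𝓝[>] 0 ×ˢ 𝓝 ζ ×ˢ 𝓝 v, 0 < t.1 :=
    (tendsto_fst (f := 𝓝[>] (0 : ℝ)) (g := 𝓝 ζ ×ˢ 𝓝 v)).eventually self_mem_nhdsWithin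
  filter_upwards [tR.eventually (lt_mem_nhds hlt), hpos] with t ht hs hZ g hg ℓ c hc
  have h3 := deriv_low hβ hβ0 hβs h1 hq hg hs hZ ℓ c hc
  refine le_trans (le_of_lt ht) (le_trans (le_of_eq ?_) h3)
  have hsn : 0 < t.1 ^ n := by positivity
  have e : ∀ φ : E m → E m → ℝ, ∑ i, ∫ z, β z * φ (t.1⁻¹ • (q i z - q i0 t.2.1)) (fderiv ℝ (q i0) t.2.1 t.2.2) =
      t.1 ^ n * ∑ i, Ti β φ (q i) t.1 (q i0 t.2.1) (fderiv ℝ (q i0) t.2.1 t.2.2) := by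
    intro φ
    rw [Finset.mul_sum]
    refine Finset.sum_congr rfl fun i _ => ?_
    unfold Ti
    rw [← mul_assoc, mul_inv_cancel₀ hsn.ne', one_mul]
  rw [e, e, e, abs_mul, abs_of_pos hsn]
  simp only [Pi.div_apply]
  field_simp

end Pool.Agent.H865_iso
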